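import Pool.Agent.Lib.MP_2f3cff_al.Defs

set_option autoImplicit false

namespace Pool.Agent.Lib.MP_2f3cff_al

/-- total function as a partial function -/
def tot {n : ℕ} (h : (Fin n → Bool) → Bool) : PFn n := fun x => some (h x)

theorem isTotal_tot {n : ℕ} (h : (Fin n → Bool) → Bool) : IsTotal (tot h) := fun _ => rfl

theorem exists_tot {n : ℕ} {f : PFn n} (hf : IsTotal f) : ∃ h, f = tot h :=
  ⟨fun x => (f x).get (hf x), by funext x; simp [tot]⟩

theorem tot_injective {n : ℕ} {h h' : (Fin n → Bool) → Bool} (e : tot h = tot h') : h = h' := by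
  funext x
  have := congrFun e x
  simpa [tot] using this

theorem comp_eq_some {n m : ℕ} {f : PFn (n + 1)} {g : Fin (n + 1) → PFn (m + 1)}
    {x : Fin (m + 1) → Bool} {b : Bool} :
    comp f g x = some b ↔
      ∃ y : Fin (n + 1) → Bool, (∀ i, g i x = some (y i)) ∧ f y = some b := by
  unfold comp
  constructor
  · intro hb
    by_cases h : ∀ i, (g i x).isSome
    · rw [dif_pos h] at hb
      exact ⟨_, fun i => by simp, hb⟩
    · rw [dif_neg h] at hb
      exact absurd hb (by simp)
  · rintro ⟨y, hy, hf⟩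
    have h : ∀ i, (g i x).isSome := fun i => by simp [hy i]
    rw [dif_pos h]
    have : (fun i => (g i x).get (h i)) = y := by
      funext i
      simp [hy i]
    rw [this, hf]

theorem comp_tot {n m : ℕ} (h : (Fin (n + 1) → Bool) → Bool)
    (g : Fin (n + 1) → (Fin (m + 1) → Bool) → Bool) :
    comp (tot h) (fun i => tot (g i)) = tot (fun x => h (fun i => g i x)) := by
  funext x
  have : comp (tot h) (fun i => tot (g i)) x = some (h (fun i => g i x)) := by
    rw [comp_eq_some]
    exact ⟨fun i => g i x, fun i => rfl, rfl⟩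
  rw [this]
  rfl

/-- Preservation of a relation `σ ⊆ {0,1}^W` by a partial function with index type `κ`. -/
def Pres {κ W : Type} (f : (κ → Bool) → Option Bool) (σ : Set (W → Bool)) : Prop :=
  ∀ X : κ → W → Bool, (∀ i, X i ∈ σ) → ∀ z : W → Bool, (∀ w, f (fun i => X i w) = some (z w)) → z ∈ σ

/-- All partial functions preserving each member of a family of relations. -/
def PP {J : Type} (W : J → Type) (σ : ∀ j, Set (W j → Bool)) : Fam :=
  fun n => {f | ∀ j, Pres f (σ j)}

theorem PP_clone {J : Type} (W : J → Type) (σ : ∀ j, Set (W j → Bool)) :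
    IsPartialClone (PP W σ) := by
  constructor
  · intro n i j X hX z hz
    have : z = X i := by
      funext w
      have := hz w
      simp only [proj, Option.some.injEq] at this
      exact this.symm
    rw [this]
    exact hX i
  · intro n m f g hf hg j X hX z hz
    have h1 : ∀ w, ∃ y : Fin (n + 1) → Bool,
        (∀ i, g i (fun l => X l w) = some (y i)) ∧ f y = some (z w) := fun w => by
      have := hz w
      rwa [comp_eq_some] at this
    choose y hy hfy using h1
    exact hf j (fun i w => y w i) (fun i => hg i j X hX _ (fun w => hy w i)) z hfy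

theorem PP_strong {J : Type} (W : J → Type) (σ : ∀ j, Set (W j → Bool)) :
    IsStrong (PP W σ) := by
  intro n f f' hf hr j X hX z hz
  refine hf j X hX z (fun w => ?_)
  rcases hr (fun i => X i w) with h | h
  · rw [hz w] at h
    exact absurd h (by simp)
  · rw [← h, hz w]

/-- the relation of all total members of arity `k+1` of `D`. -/
def relOf (D : Fam) (k : ℕ) : Set ((Fin (k + 1) → Bool) → Bool) := {h | tot h ∈ D k}

theorem relOf_inv {D : Fam} (hD : IsPartialClone D) {n : ℕ} {h : (Fin (n + 1) → Bool) → Bool}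
    (hh : tot h ∈ D n) (k : ℕ) : Pres (tot h) (relOf D k) := by
  intro X hX z hz
  have : z = fun w => h (fun i => X i w) := by
    funext w
    have := hz w
    simp only [tot, Option.some.injEq] at this
    exact this.symm
  rw [this]
  show tot _ ∈ D k
  rw [← comp_tot]
  exact hD.2 _ _ _ _ hh hX

/-- Intersection of two families. -/
def inter (A B : Fam) : Fam := fun n => A n ∩ B n

theorem inter_clone {A B : Fam} (hA : IsPartialClone A) (hB : IsPartialClone B) :
    IsPartialClone (inter A B) :=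
  ⟨fun n i => ⟨hA.1 n i, hB.1 n i⟩, fun n m f g hf hg =>
    ⟨hA.2 n m f g hf.1 (fun i => (hg i).1), hB.2 n m f g hf.2 (fun i => (hg i).2)⟩⟩

theorem inter_strong {A B : Fam} (hA : IsStrong A) (hB : IsStrong B) :
    IsStrong (inter A B) :=
  fun n f f' hf hr => ⟨hA n f f' hf.1 hr, hB n f f' hf.2 hr⟩

/-- The largest strong partial clone with total part `D`. -/
def UU (D : Fam) : Fam := PP (J := ℕ) (fun k => (Fin (k + 1) → Bool)) (relOf D)

/-- Any family of relations added to the relations `relOf D k` all of which `D` preserves gives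
a member of `IStr D`. -/
theorem mem_IStr {D : Fam} (hD : IsBooleanClone D) {J : Type} (W : J → Type)
    (σ : ∀ j, Set (W j → Bool))
    (hinv : ∀ (j : J) (k : ℕ) (h : (Fin (k + 1) → Bool) → Bool), tot h ∈ D k → Pres (tot h) (σ j)) :
    inter (UU D) (PP W σ) ∈ IStr D := by
  refine ⟨inter_clone (PP_clone _ _) (PP_clone _ _),
    inter_strong (PP_strong _ _) (PP_strong _ _), ?_⟩
  funext n
  ext f
  constructor
  · rintro ⟨⟨hf, -⟩, ht⟩
    obtain ⟨h, rfl⟩ := exists_tot ht
    exact hf n (fun i x => x i) (fun i => hD.1.1 n i) h (fun w => rfl)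
  · intro hf
    refine ⟨?_, hD.2 n f hf⟩
    obtain ⟨h, rfl⟩ := exists_tot (hD.2 n f hf)
    exact ⟨fun k => relOf_inv hD.1 hf k, fun j => hinv j n h hf⟩

theorem embed_nat (C : Fam) : Nonempty (IStr C ↪o Set ℕ) := by
  have : Countable (Σ n : ℕ, PFn (n + 1)) := inferInstance
  obtain ⟨e, he⟩ := exists_injective_nat (Σ n : ℕ, PFn (n + 1))
  refine ⟨OrderEmbedding.ofMapLEIff (fun P => e '' {s | s.2 ∈ P.1 s.1}) ?_⟩
  intro P Q
  show e '' _ ⊆ e '' _ ↔ _
  rw [Set.image_subset_image_iff he]
  constructor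
  · intro h n f hf
    exact h (a := ⟨n, f⟩) hf
  · intro h s hs
    exact h s.1 hs

/-- The main construction of an independent family. -/
theorem embed_of_family {D : Fam} (hD : IsBooleanClone D) (V : ℕ → Type) [∀ n, Finite (V n)]
    (ρ : ∀ n, Set (V n → Bool)) (t : ∀ n, V n → Bool)
    (hne : ∀ n, (ρ n).Nonempty)
    (hsep : ∀ n u v, u ≠ v → ∃ x ∈ ρ n, x u ≠ x v)
    (ht : ∀ n, t n ∉ ρ n)
    (hind : ∀ m n, m ≠ n → ∀ φ : V m → V n, (∀ x ∈ ρ n, x ∘ φ ∈ ρ m) → t n ∘ φ ∈ ρ m)
    (hinv : ∀ n k (h : (Fin (k + 1) → Bool) → Bool), tot h ∈ D k → Pres (tot h) (ρ n))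
    (hU : ∀ n k (ψ : (Fin (k + 1) → Bool) → V n),
      (∀ x ∈ ρ n, tot (x ∘ ψ) ∈ D k) → tot (t n ∘ ψ) ∈ D k) :
    Nonempty (Set ℕ ↪o IStr D) := by
  classical
  -- the family associated with `X`
  let P : Set ℕ → Fam := fun X => inter (UU D)
    (PP (J := {n : ℕ // n ∉ X}) (fun n => V n.1) (fun j => ρ j.1))
  have hP : ∀ X, P X ∈ IStr D := fun X =>
    mem_IStr hD (J := {n : ℕ // n ∉ X}) (fun n => V n.1) (fun j => ρ j.1)
      (fun j k h hh => hinv j.1 k h hh)
  refine ⟨OrderEmbedding.ofMapLEIff (fun X => ⟨P X, hP X⟩) ?_⟩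
  intro X Y
  constructor
  · intro hle
    by_contra hXY
    obtain ⟨n, hnX, hnY⟩ := Set.not_subset.1 hXY
    -- the arity
    have hfin : Finite (ρ n) := inferInstance
    obtain ⟨N, hN⟩ : ∃ N, Nonempty ((ρ n) ≃ Fin (N + 1)) := by
      have hc : Nat.card (ρ n) ≠ 0 := by
        have : Nonempty (ρ n) := (hne n).to_subtype
        exact Nat.card_pos.ne'
      obtain ⟨N, hN⟩ := Nat.exists_eq_succ_of_ne_zero hc
      exact ⟨N, ⟨Finite.equivFinOfCardEq hN⟩⟩
    obtain ⟨e⟩ := hN
    let f : PFn (N + 1) := fun x =>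
      if h : ∃ v : V n, ∀ i : ρ n, x (e i) = i.1 v then some (t n h.choose) else none
    have hf : ∀ x b, f x = some b ↔ ∃ v : V n, (∀ i : ρ n, x (e i) = i.1 v) ∧ b = t n v := by
      intro x b
      show (if h : ∃ v : V n, ∀ i : ρ n, x (e i) = i.1 v then some (t n h.choose) else none) = some b
        ↔ _
      constructor
      · intro hx
        by_cases h : ∃ v : V n, ∀ i : ρ n, x (e i) = i.1 v
        · rw [dif_pos h] at hx
          refine ⟨h.choose, h.choose_spec, ?_⟩
          simpa using hx.symm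
        · rw [dif_neg h] at hx
          exact absurd hx (by simp)
      · rintro ⟨v, hv, rfl⟩
        have h : ∃ v : V n, ∀ i : ρ n, x (e i) = i.1 v := ⟨v, hv⟩
        rw [dif_pos h]
        have : h.choose = v := by
          by_contra hne'
          obtain ⟨y, hy, hyv⟩ := hsep n _ _ hne'
          exact hyv (((h.choose_spec ⟨y, hy⟩).symm.trans (hv ⟨y, hy⟩)))
        rw [this]
    -- general preservation criterion
    have hpres : ∀ {W : Type} (σ : Set (W → Bool)),
        (∀ φ : W → V n, (∀ x ∈ ρ n, x ∘ φ ∈ σ) → t n ∘ φ ∈ σ) → Pres f σ := by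
      intro W σ hσ Z hZ z hz
      have h1 : ∀ w, ∃ v : V n, (∀ i : ρ n, Z (e i) w = i.1 v) ∧ z w = t n v := fun w =>
        (hf (fun i => Z i w) (z w)).1 (hz w)
      choose φ hφ hφz using h1
      have hz' : z = t n ∘ φ := by
        funext w
        exact hφz w
      rw [hz']
      refine hσ φ (fun x hx => ?_)
      have : x ∘ φ = Z (e ⟨x, hx⟩) := by
        funext w
        exact (hφ w ⟨x, hx⟩).symm
      rw [this]
      exact hZ _
    have hfX : f ∈ P X N := by
      refine ⟨fun k => hpres _ (fun φ hφ => hU n k φ hφ), ?_⟩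
      rintro ⟨m, hm⟩
      refine hpres _ (fun φ hφ => hind m n ?_ φ hφ)
      rintro rfl
      exact hm hnX
    have hfY : f ∈ P Y N := hle N hfX
    have h2 := hfY.2 ⟨n, hnY⟩
    have h3 : t n ∈ ρ n := by
      refine h2 (fun i => (e.symm i).1) (fun i => (e.symm i).2) (t n) (fun w => ?_)
      refine (hf (fun i => (e.symm i).1 w) (t n w)).2 ⟨w, fun i => ?_, rfl⟩
      show ((e.symm (e i)).1 : V n → Bool) w = i.1 w
      rw [Equiv.symm_apply_apply]
    exact ht n h3
  · intro hXY k f hf
    refine ⟨hf.1, ?_⟩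
    rintro ⟨m, hm⟩
    exact hf.2 ⟨m, fun h => hm (hXY h)⟩

end Pool.Agent.Lib.MP_2f3cff_al
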