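import Pool.Agent.Lib.MP_2f3cff_al.Basic

set_option autoImplicit false

namespace Pool.Agent.Lib.MP_2f3cff_al

/-- membership of a total function -/
def Mem (C : Fam) {n : ℕ} (h : (Fin (n + 1) → Bool) → Bool) : Prop := tot h ∈ C n

/-- every member of `C` has the property `Q` -/
def Sub (C : Fam) (Q : ∀ {n : ℕ}, ((Fin (n + 1) → Bool) → Bool) → Prop) : Prop :=
  ∀ (n : ℕ) (h : (Fin (n + 1) → Bool) → Bool), Mem C h → Q h

def QT02 {n : ℕ} (h : (Fin (n + 1) → Bool) → Bool) : Prop :=
  ∀ a b, h a = true → h b = true → ∃ i, a i = true ∧ b i = true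

def QT12 {n : ℕ} (h : (Fin (n + 1) → Bool) → Bool) : Prop :=
  ∀ a b, h a = false → h b = false → ∃ i, a i = false ∧ b i = false

def QLam {n : ℕ} (h : (Fin (n + 1) → Bool) → Bool) : Prop :=
  ∀ a b, h (fun i => a i && b i) = (h a && h b)

def QVee {n : ℕ} (h : (Fin (n + 1) → Bool) → Bool) : Prop :=
  ∀ a b, h (fun i => a i || b i) = (h a || h b)

def QLin {n : ℕ} (h : (Fin (n + 1) → Bool) → Bool) : Prop :=
  ∀ a b, h (fun i => xor (a i) (b i)) = xor (xor (h a) (h b)) (h (fun _ => false))

def QT0 {n : ℕ} (h : (Fin (n + 1) → Bool) → Bool) : Prop := h (fun _ => false) = false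

def QT1 {n : ℕ} (h : (Fin (n + 1) → Bool) → Bool) : Prop := h (fun _ => true) = true

def QM {n : ℕ} (h : (Fin (n + 1) → Bool) → Bool) : Prop :=
  ∀ a b, (∀ i, a i = true → b i = true) → h a = true → h b = true

def QS {n : ℕ} (h : (Fin (n + 1) → Bool) → Bool) : Prop :=
  ∀ a, h (fun i => !(a i)) = !(h a)

/-- essentially unary -/
def QU {n : ℕ} (h : (Fin (n + 1) → Bool) → Bool) : Prop :=
  (∃ c, ∀ x, h x = c) ∨ ∃ i c, ∀ x, h x = xor (x i) c

theorem Mem.sub {C : Fam} (hC : IsBooleanClone C) {n m : ℕ} {h : (Fin (n + 1) → Bool) → Bool}
    (hh : Mem C h) {g : Fin (n + 1) → (Fin (m + 1) → Bool) → Bool} (hg : ∀ i, Mem C (g i)) :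
    Mem C (fun x => h (fun i => g i x)) := by
  have := hC.1.2 n m (tot h) (fun i => tot (g i)) hh hg
  rwa [comp_tot] at this

theorem Mem.proj {C : Fam} (hC : IsBooleanClone C) {n : ℕ} (i : Fin (n + 1)) :
    Mem C (fun x : Fin (n + 1) → Bool => x i) := hC.1.1 n i

def M1 (C : Fam) (u : Bool → Bool) : Prop := Mem C (n := 0) (fun x => u (x 0))
def M2 (C : Fam) (b : Bool → Bool → Bool) : Prop := Mem C (n := 1) (fun x => b (x 0) (x 1))
def M3 (C : Fam) (t : Bool → Bool → Bool → Bool) : Prop :=
  Mem C (n := 2) (fun x => t (x 0) (x 1) (x 2))

theorem M1.app {C : Fam} (hC : IsBooleanClone C) {u : Bool → Bool} (hu : M1 C u) {n : ℕ}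
    {h : (Fin (n + 1) → Bool) → Bool} (hh : Mem C h) : Mem C (fun x => u (h x)) :=
  Mem.sub hC (n := 0) hu (g := fun _ => h) (fun _ => hh)

theorem M2.app {C : Fam} (hC : IsBooleanClone C) {u : Bool → Bool → Bool} (hu : M2 C u) {n : ℕ}
    {h h' : (Fin (n + 1) → Bool) → Bool} (hh : Mem C h) (hh' : Mem C h') :
    Mem C (fun x => u (h x) (h' x)) := by
  have := Mem.sub hC (n := 1) hu (g := fun i x => if i = 0 then h x else h' x) (fun i => by
    by_cases hi : i = 0
    · simpa [hi] using hh
    · simpa [hi] using hh')
  simpa using this

theorem M3.app {C : Fam} (hC : IsBooleanClone C) {u : Bool → Bool → Bool → Bool} (hu : M3 C u)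
    {n : ℕ} {h h' h'' : (Fin (n + 1) → Bool) → Bool} (hh : Mem C h) (hh' : Mem C h')
    (hh'' : Mem C h'') :
    Mem C (fun x => u (h x) (h' x) (h'' x)) := by
  have := Mem.sub hC (n := 2) hu (g := fun i x => if i = 0 then h x else if i = 1 then h' x
    else h'' x) (fun i => by
    by_cases hi : i = 0
    · simpa [hi] using hh
    · by_cases hi' : i = 1
      · simpa [hi'] using hh'
      · simpa [hi, hi'] using hh'')
  simpa using this

theorem Mem.const {C : Fam} (hC : IsBooleanClone C) {c : Bool} (hu : M1 C (fun _ => c)) (n : ℕ) :
    Mem C (fun _ : Fin (n + 1) → Bool => c) :=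
  M1.app hC hu (Mem.proj hC (0 : Fin (n + 1)))

/-- unary minor -/
theorem Mem.diag {C : Fam} (hC : IsBooleanClone C) {n : ℕ} {h : (Fin (n + 1) → Bool) → Bool}
    (hh : Mem C h) : M1 C (fun x => h (fun _ => x)) :=
  Mem.sub hC hh (fun _ => Mem.proj hC 0)

/-- build a binary member out of `h` -/
theorem Mem.mk2 {C : Fam} (hC : IsBooleanClone C) {n : ℕ} {h : (Fin (n + 1) → Bool) → Bool}
    (hh : Mem C h) (g : Fin (n + 1) → Bool → Bool → Bool) (hg : ∀ i, M2 C (g i)) :
    M2 C (fun x y => h (fun i => g i x y)) :=
  Mem.sub hC hh (g := fun i x => g i (x 0) (x 1)) (fun i => hg i)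

theorem Mem.mk3 {C : Fam} (hC : IsBooleanClone C) {n : ℕ} {h : (Fin (n + 1) → Bool) → Bool}
    (hh : Mem C h) (g : Fin (n + 1) → Bool → Bool → Bool → Bool) (hg : ∀ i, M3 C (g i)) :
    M3 C (fun x y z => h (fun i => g i x y z)) :=
  Mem.sub hC hh (g := fun i x => g i (x 0) (x 1) (x 2)) (fun i => hg i)

theorem M2.fst {C : Fam} (hC : IsBooleanClone C) : M2 C (fun x _ => x) := Mem.proj hC 0
theorem M2.snd {C : Fam} (hC : IsBooleanClone C) : M2 C (fun _ y => y) := Mem.proj hC 1
theorem M3.p0 {C : Fam} (hC : IsBooleanClone C) : M3 C (fun x _ _ => x) := Mem.proj hC 0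
theorem M3.p1 {C : Fam} (hC : IsBooleanClone C) : M3 C (fun _ y _ => y) := Mem.proj hC 1
theorem M3.p2 {C : Fam} (hC : IsBooleanClone C) : M3 C (fun _ _ z => z) := Mem.proj hC 2

/-- composition of a binary member with binary members -/
theorem M2.comp2 {C : Fam} (hC : IsBooleanClone C) {u v w : Bool → Bool → Bool} (hu : M2 C u)
    (hv : M2 C v) (hw : M2 C w) : M2 C (fun x y => u (v x y) (w x y)) :=
  M2.app hC hu (h := fun x => v (x 0) (x 1)) (h' := fun x => w (x 0) (x 1)) hv hw

theorem M2.comp3 {C : Fam} (hC : IsBooleanClone C) {u : Bool → Bool → Bool}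
    {v w : Bool → Bool → Bool → Bool} (hu : M2 C u)
    (hv : M3 C v) (hw : M3 C w) : M3 C (fun x y z => u (v x y z) (w x y z)) :=
  M2.app hC hu (h := fun x => v (x 0) (x 1) (x 2)) (h' := fun x => w (x 0) (x 1) (x 2)) hv hw

theorem M1.comp2 {C : Fam} (hC : IsBooleanClone C) {u : Bool → Bool} {v : Bool → Bool → Bool}
    (hu : M1 C u) (hv : M2 C v) : M2 C (fun x y => u (v x y)) :=
  M1.app hC hu (h := fun x => v (x 0) (x 1)) hv

theorem M1.comp3 {C : Fam} (hC : IsBooleanClone C) {u : Bool → Bool}
    {v : Bool → Bool → Bool → Bool}
    (hu : M1 C u) (hv : M3 C v) : M3 C (fun x y z => u (v x y z)) :=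
  M1.app hC hu (h := fun x => v (x 0) (x 1) (x 2)) hv

theorem M2.diag {C : Fam} (hC : IsBooleanClone C) {u : Bool → Bool → Bool} (hu : M2 C u) :
    M1 C (fun x => u x x) := Mem.diag hC (h := fun x : Fin 2 → Bool => u (x 0) (x 1)) hu

theorem M3.diag {C : Fam} (hC : IsBooleanClone C) {u : Bool → Bool → Bool → Bool} (hu : M3 C u) :
    M1 C (fun x => u x x x) :=
  Mem.diag hC (h := fun x : Fin 3 → Bool => u (x 0) (x 1) (x 2)) hu

theorem M3.comp3 {C : Fam} (hC : IsBooleanClone C) {u v w s : Bool → Bool → Bool → Bool}
    (hu : M3 C u) (hv : M3 C v) (hw : M3 C w) (hs : M3 C s) :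
    M3 C (fun x y z => u (v x y z) (w x y z) (s x y z)) :=
  M3.app hC hu (h := fun x => v (x 0) (x 1) (x 2)) (h' := fun x => w (x 0) (x 1) (x 2))
    (h'' := fun x => s (x 0) (x 1) (x 2)) hv hw hs

theorem M2.const {C : Fam} (hC : IsBooleanClone C) {c : Bool} (hu : M1 C (fun _ => c)) :
    M2 C (fun _ _ => c) := Mem.const hC hu 1

theorem M3.const {C : Fam} (hC : IsBooleanClone C) {c : Bool} (hu : M1 C (fun _ => c)) :
    M3 C (fun _ _ _ => c) := Mem.const hC hu 2

theorem M2.congr {C : Fam} {u v : Bool → Bool → Bool} (hu : M2 C u) (h : ∀ x y, v x y = u x y) :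
    M2 C v := by
  have : v = u := by funext x y; exact h x y
  rw [this]; exact hu

theorem M1.congr {C : Fam} {u v : Bool → Bool} (hu : M1 C u) (h : ∀ x, v x = u x) :
    M1 C v := by
  have : v = u := by funext x; exact h x
  rw [this]; exact hu

theorem M3.congr {C : Fam} {u v : Bool → Bool → Bool → Bool} (hu : M3 C u)
    (h : ∀ x y z, v x y z = u x y z) : M3 C v := by
  have : v = u := by funext x y z; exact h x y z
  rw [this]; exact hu

/-- `∧ ∈ C`, `C ⊄ T02`, `C ⊄ Λ` imply `∨ ∈ C`. -/
theorem or_of_and {C : Fam} (hC : IsBooleanClone C) (hand : M2 C (fun x y => x && y))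
    (h1 : ¬ Sub C QT02) (h2 : ¬ Sub C QLam) : M2 C (fun x y => x || y) := by
  -- `∨` or the constant `1`
  have key1 : M2 C (fun x y => x || y) ∨ M1 C (fun _ => true) := by
    unfold Sub at h1
    push Not at h1
    obtain ⟨n, h, hh, hQ⟩ := h1
    unfold QT02 at hQ
    push Not at hQ
    obtain ⟨a, b, ha, hb, hab⟩ := hQ
    have hf := Mem.mk2 hC hh (fun i x y => if a i = true then x else if b i = true then y
      else (x && y)) (fun i => by
        by_cases h1 : a i = true
        · simpa [h1] using M2.fst hC
        · by_cases h2 : b i = true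
          · simpa [h1, h2] using M2.snd hC
          · simpa [h1, h2] using hand)
    have f10 : (fun i => if a i = true then true else if b i = true then false
      else (true && false)) = a := by
      funext i
      cases h : a i <;> simp
    have f01 : (fun i => if a i = true then false else if b i = true then true
      else (false && true)) = b := by
      funext i
      have := hab i
      cases h : a i <;> cases h' : b i <;> simp_all
    set f : Bool → Bool → Bool := fun x y => h (fun i => if a i = true then x
      else if b i = true then y else (x && y)) with hfdef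
    have e10 : f true false = true := by
      rw [hfdef]; simp only; rw [f10]; exact ha
    have e01 : f false true = true := by
      rw [hfdef]; simp only; rw [f01]; exact hb
    clear_value f
    clear hfdef
    rcases h00 : f false false with _ | _ <;> rcases h11 : f true true with _ | _
    · -- xor
      left
      have := M2.comp2 hC hf hf hand
      refine M2.congr this (fun x y => ?_)
      cases x <;> cases y <;> simp [*]
    · left
      refine M2.congr hf (fun x y => ?_)
      cases x <;> cases y <;> simp [*]
    · left
      -- nand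
      have hn := M2.diag hC hf
      have := M2.comp2 hC hf (M1.comp2 hC hn (M2.fst hC)) (M1.comp2 hC hn (M2.snd hC))
      refine M2.congr this (fun x y => ?_)
      cases x <;> cases y <;> simp [*]
    · right
      refine M1.congr (M2.diag hC hf) (fun x => ?_)
      cases x <;> simp [*]
  rcases key1 with h | hone
  · exact h
  unfold Sub at h2
  push Not at h2
  obtain ⟨n, h, hh, hQ⟩ := h2
  unfold QLam at hQ
  push Not at hQ
  obtain ⟨a, b, hab⟩ := hQ
  -- nonmonotone case
  have nm : ∀ c d : Fin (n + 1) → Bool, (∀ i, c i = true → d i = true) → h c = true →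
      h d = false → M2 C (fun x y => x || y) := by
    intro c d hcd hc hd
    have hf := Mem.mk2 hC hh (fun i x y => if c i = true then true else if d i = true then x
      else (x && y)) (fun i => by
        by_cases h1 : c i = true
        · simpa [h1] using M2.const hC hone
        · by_cases h2 : d i = true
          · simpa [h1, h2] using M2.fst hC
          · simpa [h1, h2] using hand)
    have f0 : ∀ y : Bool, (fun i => if c i = true then true else if d i = true then false
      else (false && y)) = c := by
      intro y
      funext i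
      cases h : c i <;> simp
    have f10 : (fun i => if c i = true then true else if d i = true then true
      else (true && false)) = d := by
      funext i
      have := hcd i
      cases h : c i <;> cases h' : d i <;> simp_all
    set f : Bool → Bool → Bool := fun x y => h (fun i => if c i = true then true
      else if d i = true then x else (x && y)) with hfdef
    have e0 : ∀ y, f false y = true := by
      intro y
      rw [hfdef]; simp only; rw [f0]; exact hc
    have e10 : f true false = false := by
      rw [hfdef]; simp only; rw [f10]; exact hd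
    clear_value f
    clear hfdef
    rcases h11 : f true true with _ | _
    · have hn := M2.diag hC hf
      have := M1.comp2 hC hn (M2.comp2 hC hand (M1.comp2 hC hn (M2.fst hC))
        (M1.comp2 hC hn (M2.snd hC)))
      refine M2.congr this (fun x y => ?_)
      cases x <;> cases y <;> simp [*]
    · have := M2.comp2 hC hf hf (M2.snd hC)
      refine M2.congr this (fun x y => ?_)
      cases x <;> cases y <;> simp [*]
  by_cases hmeet : h (fun i => a i && b i) = true
  · by_cases ha : h a = true
    · have hb : h b = false := by
        cases hb : h b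
        · rfl
        · exact absurd (by simp [hmeet, ha, hb]) hab
      exact nm _ b (fun i => by simp) hmeet hb
    · exact nm _ a (fun i => by simp; tauto) hmeet (by simpa using ha)
  · have ha : h a = true := by
      by_contra h'
      exact hab (by simp_all)
    have hb : h b = true := by
      by_contra h'
      exact hab (by simp_all)
    have hmeet' : h (fun i => a i && b i) = false := by simpa using hmeet
    have hf := Mem.mk2 hC hh (fun i x y => if (a i && b i) = true then true
      else if a i = true then x else if b i = true then y else (x && y)) (fun i => by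
        by_cases h0 : (a i && b i) = true
        · simpa [h0] using M2.const hC hone
        · by_cases h1 : a i = true
          · have : b i = false := by simpa [h1] using h0
            simpa [h1, this] using M2.fst hC
          · by_cases h2 : b i = true
            · simpa [h1, h2] using M2.snd hC
            · simpa [h1, h2] using hand)
    have f10 : (fun i => if (a i && b i) = true then true
      else if a i = true then true else if b i = true then false else (true && false)) = a := by
      funext i
      cases a i <;> cases b i <;> simp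
    have f01 : (fun i => if (a i && b i) = true then true
      else if a i = true then false else if b i = true then true else (false && true)) = b := by
      funext i
      cases a i <;> cases b i <;> simp
    have f00 : (fun i => if (a i && b i) = true then true
      else if a i = true then false else if b i = true then false else (false && false)) =
        (fun i => a i && b i) := by
      funext i
      cases a i <;> cases b i <;> simp
    set f : Bool → Bool → Bool := fun x y => h (fun i => if (a i && b i) = true then true
      else if a i = true then x else if b i = true then y else (x && y)) with hfdef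
    have e10 : f true false = true := by
      rw [hfdef]; simp only; rw [f10]; exact ha
    have e01 : f false true = true := by
      rw [hfdef]; simp only; rw [f01]; exact hb
    have e00 : f false false = false := by
      rw [hfdef]; simp only; rw [f00]; exact hmeet'
    clear_value f
    clear hfdef
    rcases h11 : f true true with _ | _
    · have := M2.comp2 hC hf hf hand
      refine M2.congr this (fun x y => ?_)
      cases x <;> cases y <;> simp [*]
    · refine M2.congr hf (fun x y => ?_)
      cases x <;> cases y <;> simp [*]

end Pool.Agent.Lib.MP_2f3cff_al
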