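import Mathlib

/-!
Boolean partial clones: basic definitions.

A partial Boolean function of arity `n` is a map `(Fin n → Bool) → Option Bool`, where the value
`none` means undefined.  Only arities `n + 1 ≥ 1` are used.
-/

set_option autoImplicit false

namespace Pool.Agent.Lib.MP_2f3cff_al

/-- `n`-ary partial functions on `{0,1}`; the value `none` means undefined. -/
abbrev PFn (n : ℕ) : Type := (Fin n → Bool) → Option Bool

/-- A set of partial Boolean functions of positive arity: `P n` is its set of members of
arity `n + 1`. The order on `Fam` is inclusion. -/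
abbrev Fam : Type := ∀ n : ℕ, Set (PFn (n + 1))

/-- The (total) projections. -/
def proj {n : ℕ} (i : Fin (n + 1)) : PFn (n + 1) := fun x => some (x i)

/-- Composition `f(g_1, …, g_n)`: defined at `x` exactly when every `g_i(x)` is defined and
`(g_1(x), …, g_n(x))` lies in the domain of `f`. -/
def comp {n m : ℕ} (f : PFn (n + 1)) (g : Fin (n + 1) → PFn (m + 1)) : PFn (m + 1) :=
  fun x => if h : ∀ i, (g i x).isSome then f (fun i => (g i x).get (h i)) else none

/-- Partial clones: contain all projections, closed under composition. -/
def IsPartialClone (P : Fam) : Prop :=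
  (∀ (n : ℕ) (i : Fin (n + 1)), proj i ∈ P n) ∧
    ∀ (n m : ℕ) (f : PFn (n + 1)) (g : Fin (n + 1) → PFn (m + 1)),
      f ∈ P n → (∀ i, g i ∈ P m) → comp f g ∈ P m

/-- `f'` is the restriction of `f` to a subset of its domain. -/
def IsRestriction {n : ℕ} (f' f : PFn n) : Prop := ∀ x, f' x = none ∨ f' x = f x

/-- Strong: closed under restricting a function to an arbitrary subset of its domain. -/
def IsStrong (P : Fam) : Prop :=
  ∀ (n : ℕ) (f f' : PFn (n + 1)), f ∈ P n → IsRestriction f' f → f' ∈ P n

/-- Total functions. -/
def IsTotal {n : ℕ} (f : PFn n) : Prop := ∀ x, (f x).isSome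

/-- The total part of a family. -/
def totalPart (P : Fam) : Fam := fun n => {f | f ∈ P n ∧ IsTotal f}

/-- Boolean clones: partial clones consisting of total functions. -/
def IsBooleanClone (C : Fam) : Prop :=
  IsPartialClone C ∧ ∀ (n : ℕ) (f : PFn (n + 1)), f ∈ C n → IsTotal f

/-- The interval `I_Str(C)`: all strong partial clones whose total part is exactly `C`,
ordered by inclusion. -/
def IStr (C : Fam) : Set Fam :=
  {P | IsPartialClone P ∧ IsStrong P ∧ totalPart P = C}

end Pool.Agent.Lib.MP_2f3cff_al
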