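import Pool.Agent.Lib.MP_2f3cff_al.Clones

set_option autoImplicit false

namespace Pool.Agent.Lib.MP_2f3cff_al

def nv {n : ℕ} (x : Fin n → Bool) : Fin n → Bool := fun i => !x i

theorem nv_nv {n : ℕ} (x : Fin n → Bool) : nv (nv x) = x := by
  funext i; simp [nv]

def dualf {n : ℕ} (f : PFn n) : PFn n := fun x => (f (nv x)).map not

def dualh {n : ℕ} (h : (Fin n → Bool) → Bool) : (Fin n → Bool) → Bool := fun x => !(h (nv x))

theorem dualf_dualf {n : ℕ} (f : PFn n) : dualf (dualf f) = f := by
  funext x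
  have e : (not ∘ not) = id := by funext b; simp
  simp [dualf, nv_nv, Option.map_map, e]

theorem dualh_dualh {n : ℕ} (h : (Fin n → Bool) → Bool) : dualh (dualh h) = h := by
  funext x
  simp [dualh, nv_nv]

theorem dualf_tot {n : ℕ} (h : (Fin n → Bool) → Bool) : dualf (tot h) = tot (dualh h) := by
  funext x
  simp [dualf, tot, dualh]

theorem dualf_comp {n m : ℕ} (f : PFn (n + 1)) (g : Fin (n + 1) → PFn (m + 1)) :
    dualf (comp f g) = comp (dualf f) (fun i => dualf (g i)) := by
  funext x
  apply Option.ext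
  intro b
  have h1 : dualf (comp f g) x = some b ↔ comp f g (nv x) = some (!b) := by
    unfold dualf
    cases comp f g (nv x) <;> simp [Bool.eq_not_iff]
  rw [h1, comp_eq_some, comp_eq_some]
  have h2 : ∀ {k : ℕ} (g : PFn k) (z : Fin k → Bool) (c : Bool),
      dualf g z = some c ↔ g (nv z) = some (!c) := by
    intro k g z c
    unfold dualf
    rcases h : g (nv z) with _ | d
    · simp
    · cases c <;> cases d <;> simp
  constructor
  · rintro ⟨y, hy, hf⟩
    refine ⟨nv y, fun i => ?_, ?_⟩
    · rw [h2, hy i]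
      simp [nv]
    · rw [h2, nv_nv]
      exact hf
  · rintro ⟨y, hy, hf⟩
    refine ⟨nv y, fun i => ?_, ?_⟩
    · have := hy i
      rw [h2] at this
      rw [this]
      rfl
    · rw [h2] at hf
      exact hf

theorem dualf_proj {n : ℕ} (i : Fin (n + 1)) : dualf (proj i) = proj i := by
  funext x
  simp [dualf, proj, nv]

theorem dualf_isTotal {n : ℕ} {f : PFn n} : IsTotal (dualf f) ↔ IsTotal f := by
  unfold IsTotal dualf
  constructor
  · intro h x
    have := h (nv x)
    simpa [nv_nv] using this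
  · intro h x
    have := h (nv x)
    simpa using this

def dualFam (P : Fam) : Fam := fun n => {f | dualf f ∈ P n}

theorem dualFam_dualFam (P : Fam) : dualFam (dualFam P) = P := by
  funext n
  ext f
  show dualf (dualf f) ∈ P n ↔ _
  rw [dualf_dualf]

theorem dualFam_le {P Q : Fam} : dualFam P ≤ dualFam Q ↔ P ≤ Q := by
  constructor
  · intro h n f hf
    have : dualf f ∈ dualFam P n := by
      show dualf (dualf f) ∈ P n
      rwa [dualf_dualf]
    have := h n this
    change dualf (dualf f) ∈ Q n at this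
    rwa [dualf_dualf] at this
  · intro h n f hf
    exact h n hf

theorem dual_clone {P : Fam} (h : IsPartialClone P) : IsPartialClone (dualFam P) := by
  refine ⟨fun n i => ?_, fun n m f g hf hg => ?_⟩
  · show dualf (proj i) ∈ P n
    rw [dualf_proj]
    exact h.1 n i
  · show dualf (comp f g) ∈ P m
    rw [dualf_comp]
    exact h.2 n m _ _ hf hg

theorem dual_strong {P : Fam} (h : IsStrong P) : IsStrong (dualFam P) := by
  intro n f f' hf hr
  refine h n (dualf f) (dualf f') hf (fun x => ?_)
  unfold dualf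
  rcases hr (nv x) with h | h
  · left; simp [h]
  · right; rw [h]

theorem dual_totalPart (P : Fam) : totalPart (dualFam P) = dualFam (totalPart P) := by
  funext n
  ext f
  show (dualf f ∈ P n ∧ IsTotal f) ↔ (dualf f ∈ P n ∧ IsTotal (dualf f))
  rw [dualf_isTotal]

theorem dual_boolean {C : Fam} (h : IsBooleanClone C) : IsBooleanClone (dualFam C) :=
  ⟨dual_clone h.1, fun n f hf => dualf_isTotal.1 (h.2 n _ hf)⟩

theorem dual_mem_IStr {C P : Fam} (h : P ∈ IStr C) : dualFam P ∈ IStr (dualFam C) :=
  ⟨dual_clone h.1, dual_strong h.2.1, by rw [dual_totalPart, h.2.2]⟩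

theorem dual_mem_IStr' {C P : Fam} (h : P ∈ IStr (dualFam C)) : dualFam P ∈ IStr C := by
  have := dual_mem_IStr h
  rwa [dualFam_dualFam] at this

/-- embed `IStr C` in `IStr (dual C)` -/
def dualEmb (C : Fam) : IStr C ↪o IStr (dualFam C) :=
  OrderEmbedding.ofMapLEIff (fun P => ⟨dualFam P.1, dual_mem_IStr P.2⟩)
    (fun _ _ => dualFam_le)

def dualEmb' (C : Fam) : IStr (dualFam C) ↪o IStr C :=
  OrderEmbedding.ofMapLEIff (fun P => ⟨dualFam P.1, dual_mem_IStr' P.2⟩)
    (fun _ _ => dualFam_le)

theorem Mem_dual {C : Fam} {n : ℕ} {h : (Fin (n + 1) → Bool) → Bool} :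
    Mem (dualFam C) h ↔ Mem C (dualh h) := by
  show dualf (tot h) ∈ C n ↔ _
  rw [dualf_tot]
  rfl

theorem Sub_dual {C : Fam} {Q Q' : ∀ {n : ℕ}, ((Fin (n + 1) → Bool) → Bool) → Prop}
    (hQ : ∀ (n : ℕ) (h : (Fin (n + 1) → Bool) → Bool), Q h → Q' (dualh h))
    (hs : Sub C Q) : Sub (dualFam C) Q' := by
  intro n h hh
  rw [Mem_dual] at hh
  have := hQ n _ (hs n _ hh)
  rwa [dualh_dualh] at this

theorem QT12_dual {n : ℕ} {h : (Fin (n + 1) → Bool) → Bool} (hh : QT12 h) : QT02 (dualh h) := by
  intro a b ha hb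
  obtain ⟨i, hi, hi'⟩ := hh (nv a) (nv b) (by simpa [dualh] using ha) (by simpa [dualh] using hb)
  exact ⟨i, by simpa [nv] using hi, by simpa [nv] using hi'⟩

theorem QT02_dual {n : ℕ} {h : (Fin (n + 1) → Bool) → Bool} (hh : QT02 h) : QT12 (dualh h) := by
  intro a b ha hb
  obtain ⟨i, hi, hi'⟩ := hh (nv a) (nv b) (by simpa [dualh] using ha) (by simpa [dualh] using hb)
  exact ⟨i, by simpa [nv] using hi, by simpa [nv] using hi'⟩

theorem QVee_dual {n : ℕ} {h : (Fin (n + 1) → Bool) → Bool} (hh : QVee h) : QLam (dualh h) := by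
  intro a b
  have := hh (nv a) (nv b)
  simp only [dualh]
  rw [← Bool.not_or, ← this]
  congr 2
  funext i
  simp [nv]

theorem QLam_dual {n : ℕ} {h : (Fin (n + 1) → Bool) → Bool} (hh : QLam h) : QVee (dualh h) := by
  intro a b
  have := hh (nv a) (nv b)
  simp only [dualh]
  rw [← Bool.not_and, ← this]
  congr 2
  funext i
  simp [nv]

theorem QLin_dual {n : ℕ} {h : (Fin (n + 1) → Bool) → Bool} (hh : QLin h) : QLin (dualh h) := by
  intro a b
  have h1 := hh a b
  have h2 := hh a (fun _ => true)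
  have h3 := hh b (fun _ => true)
  have h4 := hh (fun i => xor (a i) (b i)) (fun _ => true)
  have e1 : nv a = (fun i => xor (a i) true) := by funext i; simp [nv]
  have e2 : nv b = (fun i => xor (b i) true) := by funext i; simp [nv]
  have e3 : nv (fun i => xor (a i) (b i)) = (fun i => xor (xor (a i) (b i)) true) := by
    funext i; simp [nv]
  have e4 : nv (fun _ : Fin (n + 1) => false) = (fun _ => true) := by funext i; simp [nv]
  simp only [dualh]
  rw [e1, e2, e3, e4, h2, h3, h4, h1]
  cases h a <;> cases h b <;> cases h (fun _ => false) <;> cases h (fun _ => true) <;> rfl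

theorem QT0_dual {n : ℕ} {h : (Fin (n + 1) → Bool) → Bool} (hh : QT0 h) : QT1 (dualh h) := by
  unfold QT0 at hh
  unfold QT1 dualh
  have e4 : nv (fun _ : Fin (n + 1) => true) = (fun _ => false) := by funext i; simp [nv]
  rw [e4, hh]
  rfl

theorem QT1_dual {n : ℕ} {h : (Fin (n + 1) → Bool) → Bool} (hh : QT1 h) : QT0 (dualh h) := by
  unfold QT1 at hh
  unfold QT0 dualh
  have e4 : nv (fun _ : Fin (n + 1) => false) = (fun _ => true) := by funext i; simp [nv]
  rw [e4, hh]
  rfl

theorem QM_dual {n : ℕ} {h : (Fin (n + 1) → Bool) → Bool} (hh : QM h) : QM (dualh h) := by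
  intro a b hab ha
  simp only [dualh, Bool.not_eq_true'] at ha ⊢
  by_contra hb
  have := hh (nv b) (nv a) (fun i => by
    have := hab i
    simp only [nv]
    cases h : a i <;> cases h' : b i <;> simp_all) (by simpa using hb)
  rw [this] at ha
  cases ha

theorem QS_dual {n : ℕ} {h : (Fin (n + 1) → Bool) → Bool} (hh : QS h) : QS (dualh h) := by
  intro a
  have := hh (nv a)
  simp only [dualh]
  have e : nv (fun i => !(a i)) = (fun i => !(nv a i)) := by funext i; simp [nv]
  rw [e, this]

theorem M2_dual {C : Fam} {u : Bool → Bool → Bool} (h : M2 C u) :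
    M2 (dualFam C) (fun x y => !(u (!x) (!y))) := by
  unfold M2
  rw [Mem_dual]
  have : dualh (n := 2) (fun x => !(u (!(x 0)) (!(x 1)))) = fun x => u (x 0) (x 1) := by
    funext x
    simp [dualh, nv]
  rw [this]
  exact h

theorem M2_dual' {C : Fam} {u : Bool → Bool → Bool} (h : M2 (dualFam C) u) :
    M2 C (fun x y => !(u (!x) (!y))) := by
  have := M2_dual h
  rwa [dualFam_dualFam] at this

theorem M1_dual {C : Fam} {u : Bool → Bool} (h : M1 C u) :
    M1 (dualFam C) (fun x => !(u (!x))) := by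
  unfold M1
  rw [Mem_dual]
  have : dualh (n := 1) (fun x => !(u (!(x 0)))) = fun x => u (x 0) := by
    funext x
    simp [dualh, nv]
  rw [this]
  exact h

theorem M1_dual' {C : Fam} {u : Bool → Bool} (h : M1 (dualFam C) u) :
    M1 C (fun x => !(u (!x))) := by
  have := M1_dual h
  rwa [dualFam_dualFam] at this

theorem and_of_or {C : Fam} (hC : IsBooleanClone C) (hor : M2 C (fun x y => x || y))
    (h1 : ¬ Sub C QT12) (h2 : ¬ Sub C QVee) : M2 C (fun x y => x && y) := by
  have h3 : M2 (dualFam C) (fun x y => x && y) :=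
    M2.congr (M2_dual hor) (fun x y => by cases x <;> cases y <;> rfl)
  have h4 := or_of_and (dual_boolean hC) h3 (fun hs => h1 (by
      have := Sub_dual (Q := @QT02) (Q' := @QT12) (fun n h hh => QT02_dual hh) hs
      rwa [dualFam_dualFam] at this)) (fun hs => h2 (by
      have := Sub_dual (Q := @QLam) (Q' := @QVee) (fun n h hh => QLam_dual hh) hs
      rwa [dualFam_dualFam] at this))
  exact M2.congr (M2_dual' h4) (fun x y => by cases x <;> cases y <;> rfl)

end Pool.Agent.Lib.MP_2f3cff_al
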