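import Pool.Agent.Lib.MP_2f3cff_al.Maj

set_option autoImplicit false

namespace Pool.Agent.Lib.MP_2f3cff_al

theorem big_mem {C : Fam} (hC : IsBooleanClone C) (hmaj : M3 C maj)
    (h02 : ¬ Sub C QT02) (h12 : ¬ Sub C QT12) {n : ℕ} (h : (Fin (n + 1) → Bool) → Bool)
    (f0 : Sub C QT0 → QT0 h) (f1 : Sub C QT1 → QT1 h) (fM : Sub C QM → QM h)
    (fS : Sub C QS → QS h) : Mem C h := by
  refine interp hC hmaj h (fun a b => ?_)
  -- the relation
  obtain ⟨R, hR⟩ : ∃ R : Bool → Bool → Prop, R = fun s t =>
    ∃ g : (Fin (n + 1) → Bool) → Bool, Mem C g ∧ g a = s ∧ g b = t := ⟨_, rfl⟩
  have hcol : ∀ i, R (a i) (b i) := fun i => by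
    rw [hR]
    exact ⟨_, Mem.proj hC i, rfl, rfl⟩
  have hcl : ∀ (m : ℕ) (g : (Fin (m + 1) → Bool) → Bool), Mem C g →
      ∀ x y : Fin (m + 1) → Bool, (∀ i, R (x i) (y i)) → R (g x) (g y) := by
    intro m g hg x y hxy
    rw [hR] at hxy ⊢
    choose u hu hux huy using hxy
    refine ⟨_, Mem.sub hC hg hu, ?_, ?_⟩
    · simp only [hux]
    · simp only [huy]
  suffices hs : R (h a) (h b) by
    rw [hR] at hs
    exact hs
  clear hR
  have A : ¬ R true false → ¬ R true true → h a = false := by
    intro r1 r2
    have r : ∀ t, ¬ R true t := fun t => by cases t <;> assumption
    have ha : ∀ i, a i = false := fun i => by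
      by_contra hi
      have := hcol i
      rw [show a i = true by simpa using hi] at this
      exact r _ this
    have h0 : Sub C QT0 := by
      intro m g hg
      by_contra hne
      have := hcl m g hg (fun _ => false) (fun _ => b 0) (fun _ => by
        have := hcol 0
        rwa [ha 0] at this)
      rw [show g (fun _ => false) = true by simpa [QT0] using hne] at this
      exact r _ this
    have := f0 h0
    rwa [show a = fun _ => false from funext ha]
  have B : ¬ R false false → ¬ R false true → h a = true := by
    intro r1 r2
    have r : ∀ t, ¬ R false t := fun t => by cases t <;> assumption
    have ha : ∀ i, a i = true := fun i => by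
      by_contra hi
      have := hcol i
      rw [show a i = false by simpa using hi] at this
      exact r _ this
    have h0 : Sub C QT1 := by
      intro m g hg
      by_contra hne
      have := hcl m g hg (fun _ => true) (fun _ => b 0) (fun _ => by
        have := hcol 0
        rwa [ha 0] at this)
      rw [show g (fun _ => true) = false by simpa [QT1] using hne] at this
      exact r _ this
    have := f1 h0
    rwa [show a = fun _ => true from funext ha]
  have Cc : ¬ R false true → ¬ R true true → h b = false := by
    intro r1 r2
    have r : ∀ t, ¬ R t true := fun t => by cases t <;> assumption
    have ha : ∀ i, b i = false := fun i => by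
      by_contra hi
      have := hcol i
      rw [show b i = true by simpa using hi] at this
      exact r _ this
    have h0 : Sub C QT0 := by
      intro m g hg
      by_contra hne
      have := hcl m g hg (fun _ => a 0) (fun _ => false) (fun _ => by
        have := hcol 0
        rwa [ha 0] at this)
      rw [show g (fun _ => false) = true by simpa [QT0] using hne] at this
      exact r _ this
    have := f0 h0
    rwa [show b = fun _ => false from funext ha]
  have Dd : ¬ R false false → ¬ R true false → h b = true := by
    intro r1 r2
    have r : ∀ t, ¬ R t false := fun t => by cases t <;> assumption
    have ha : ∀ i, b i = true := fun i => by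
      by_contra hi
      have := hcol i
      rw [show b i = false by simpa using hi] at this
      exact r _ this
    have h0 : Sub C QT1 := by
      intro m g hg
      by_contra hne
      have := hcl m g hg (fun _ => a 0) (fun _ => true) (fun _ => by
        have := hcol 0
        rwa [ha 0] at this)
      rw [show g (fun _ => true) = false by simpa [QT1] using hne] at this
      exact r _ this
    have := f1 h0
    rwa [show b = fun _ => true from funext ha]
  have E : ¬ R true false → ¬ R false true → h a = h b := by
    intro r1 r2
    congr 1
    funext i
    have := hcol i
    cases ha : a i <;> cases hb : b i <;> rw [ha, hb] at this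
    · exact absurd this r2
    · exact absurd this r1
  have F : ¬ R false false → ¬ R true true → R false true → R true false →
      h b = !(h a) := by
    intro r1 r2 r3 r4
    have h0 : Sub C QS := by
      intro m g hg x
      have := hcl m g hg x (fun i => !(x i)) (fun i => by
        cases x i
        · exact r3
        · exact r4)
      cases hx : g x <;> cases hy : g (fun i => !(x i)) <;> rw [hx, hy] at this
      · exact absurd this r1
      · rfl
      · rfl
      · exact absurd this r2
    rw [← fS h0]
    congr 1
    funext i
    have := hcol i
    cases ha : a i <;> cases hb : b i <;> rw [ha, hb] at this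
    · exact absurd this r1
    · rfl
    · rfl
    · exact absurd this r2
  have G : R false false → R true true → R false true → ¬ R true false →
      (h a = true → h b = true) := by
    intro r1 r2 r3 r4
    have h0 : Sub C QM := by
      intro m g hg x y hxy hx
      have := hcl m g hg x y (fun i => by
        have := hxy i
        cases h1 : x i <;> cases h2 : y i
        · exact r1
        · exact r3
        · exact absurd (this h1) (by simp [h2])
        · exact r2)
      by_contra hy
      rw [hx, show g y = false by simpa using hy] at this
      exact r4 this
    refine fM h0 a b (fun i hi => ?_)
    have := hcol i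
    by_contra hb
    rw [hi, show b i = false by simpa using hb] at this
    exact r4 this
  have H : R false false → R true true → ¬ R false true → R true false →
      (h b = true → h a = true) := by
    intro r1 r2 r3 r4
    have h0 : Sub C QM := by
      intro m g hg x y hxy hx
      have := hcl m g hg y x (fun i => by
        have := hxy i
        cases h1 : x i <;> cases h2 : y i
        · exact r1
        · exact r4
        · exact absurd (this h1) (by simp [h2])
        · exact r2)
      by_contra hy
      rw [hx, show g y = false by simpa using hy] at this
      exact r3 this
    refine fM h0 b a (fun i hi => ?_)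
    have := hcol i
    by_contra hb
    rw [hi, show a i = false by simpa using hb] at this
    exact r3 this
  have I : R false false → R false true → R true false → R true true := by
    intro r1 r2 r3
    by_contra r4
    apply h02
    intro m g hg x y hx hy
    by_contra hne
    push Not at hne
    have := hcl m g hg x y (fun i => by
      have := hne i
      cases h1 : x i <;> cases h2 : y i
      · exact r1
      · exact r2
      · exact r3
      · exact absurd h2 (this h1))
    rw [hx, hy] at this
    exact r4 this
  have J : R true true → R false true → R true false → R false false := by
    intro r1 r2 r3
    by_contra r4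
    apply h12
    intro m g hg x y hx hy
    by_contra hne
    push Not at hne
    have := hcl m g hg x y (fun i => by
      have := hne i
      cases h1 : x i <;> cases h2 : y i
      · exact absurd h2 (this h1)
      · exact r2
      · exact r3
      · exact r1)
    rw [hx, hy] at this
    exact r4 this
  clear hcol hcl f0 f1 fM fS h02 h12
  generalize h a = p at *
  generalize h b = q at *
  have ft : (false = true) → False := by simp
  have tf : (true = false) → False := by simp
  cases p <;> cases q
  · by_contra r00
    have r01 : R false true := by by_contra r; exact ft (B r00 r)
    have r10 : R true false := by by_contra r; exact ft (Dd r00 r)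
    have r11 : R true true := by by_contra r; exact ft (F r00 r r01 r10)
    exact r00 (J r11 r01 r10)
  · by_contra r01
    have r00 : R false false := by by_contra r; exact ft (B r r01)
    have r11 : R true true := by by_contra r; exact tf (Cc r01 r)
    have r10 : R true false := by by_contra r; exact ft (E r r01)
    exact ft (H r00 r11 r01 r10 rfl)
  · by_contra r10
    have r11 : R true true := by by_contra r; exact tf (A r10 r)
    have r00 : R false false := by by_contra r; exact ft (Dd r r10)
    have r01 : R false true := by by_contra r; exact tf (E r10 r)
    exact ft (G r00 r11 r01 r10 rfl)
  · by_contra r11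
    have r10 : R true false := by by_contra r; exact tf (A r r11)
    have r01 : R false true := by by_contra r; exact tf (Cc r r11)
    have r00 : R false false := by by_contra r; exact tf (F r r11 r01 r10)
    exact r11 (I r00 r01 r10)

end Pool.Agent.Lib.MP_2f3cff_al
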