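import Pool.Agent.Lib.MP_2f3cff_al.Basic

set_option autoImplicit false

namespace Pool.Agent.Lib.MP_2f3cff_al

/-- vertices: an odd cycle of length `2n+5` together with a clique on `n+4` vertices -/
abbrev Vg (n : ℕ) : Type := ZMod (2 * n + 5) ⊕ Fin (n + 4)

instance (n : ℕ) : NeZero (2 * n + 5) := ⟨by omega⟩

def adj {n : ℕ} : Vg n → Vg n → Prop
  | Sum.inl i, Sum.inl j => j = i + 1 ∨ i = j + 1
  | Sum.inr i, Sum.inr j => i ≠ j
  | _, _ => False

theorem adj_symm {n : ℕ} {u v : Vg n} (h : adj u v) : adj v u := by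
  rcases u with i | i <;> rcases v with j | j <;> simp only [adj] at *
  · tauto
  · exact fun h' => h h'.symm

theorem one_ne_zero' (n : ℕ) : (1 : ZMod (2 * n + 5)) ≠ 0 := by
  intro h
  have h2 : ((1 : ℕ) : ZMod (2 * n + 5)) = 0 := by exact_mod_cast h
  rw [ZMod.natCast_eq_zero_iff] at h2
  have := Nat.le_of_dvd (by norm_num) h2
  omega

theorem three_ne_zero' (n : ℕ) : (3 : ZMod (2 * n + 5)) ≠ 0 := by
  intro h
  have h2 : ((3 : ℕ) : ZMod (2 * n + 5)) = 0 := by exact_mod_cast h
  rw [ZMod.natCast_eq_zero_iff] at h2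
  have := Nat.le_of_dvd (by norm_num) h2
  omega

theorem adj_irrefl {n : ℕ} (u : Vg n) : ¬ adj u u := by
  rcases u with i | i
  · simp only [adj]
    intro h
    have h' : i = i + 1 := by tauto
    have : (1 : ZMod (2 * n + 5)) = 0 := by
      have := congrArg (fun z => z - i) h'
      simpa using this.symm
    exact one_ne_zero' n this
  · simp [adj]

/-- no triangles inside the cycle -/
theorem no_triangle {n : ℕ} {a b c : ZMod (2 * n + 5)}
    (h1 : adj (n := n) (Sum.inl a) (Sum.inl b)) (h2 : adj (n := n) (Sum.inl b) (Sum.inl c))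
    (h3 : adj (n := n) (Sum.inl a) (Sum.inl c)) : False := by
  simp only [adj] at h1 h2 h3
  have e1 := one_ne_zero' n
  have e3 := three_ne_zero' n
  rcases h1 with h1 | h1 <;> rcases h2 with h2 | h2 <;> rcases h3 with h3 | h3
  · apply e1; linear_combination -h1 - h2 + h3
  · apply e3; linear_combination -h1 - h2 - h3
  · apply e1; linear_combination h1 - h2 - h3
  · apply e1; linear_combination -h1 + h2 - h3
  · apply e1; linear_combination -h1 + h2 - h3
  · apply e1; linear_combination h1 - h2 - h3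
  · apply e3; linear_combination -h1 - h2 - h3
  · apply e1; linear_combination -h1 - h2 + h3

theorem cycle_le {m n : ℕ} (c : ZMod (2 * m + 5) → ZMod (2 * n + 5))
    (hc : ∀ x, c (x + 1) = c x + 1 ∨ c x = c (x + 1) + 1) : 2 * n + 5 ≤ 2 * m + 5 := by
  classical
  -- the steps
  let ε : ℕ → ℤ := fun k => if c ((k : ZMod (2 * m + 5)) + 1) = c (k : ZMod (2 * m + 5)) + 1 then 1 else -1
  have hε : ∀ k : ℕ, ((ε k : ℤ) : ZMod (2 * n + 5)) =
      c ((k + 1 : ℕ) : ZMod (2 * m + 5)) - c (k : ZMod (2 * m + 5)) := by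
    intro k
    show (((if _ then 1 else -1 : ℤ)) : ZMod (2 * n + 5)) = _
    push_cast
    split_ifs with h
    · rw [h]; ring
    · rcases hc (k : ZMod (2 * m + 5)) with h' | h'
      · exact absurd h' h
      · rw [h']; ring
  have hsum : ((∑ k ∈ Finset.range (2 * m + 5), ε k : ℤ) : ZMod (2 * n + 5)) = 0 := by
    push_cast
    rw [Finset.sum_congr rfl (fun k _ => hε k)]
    rw [Finset.sum_range_sub (fun k => c ((k : ℕ) : ZMod (2 * m + 5)))]
    simp
  have hodd : ∀ N : ℕ, (∑ k ∈ Finset.range N, ε k) % 2 = (N : ℤ) % 2 := by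
    intro N
    induction N with
    | zero => simp
    | succ N ih =>
      rw [Finset.sum_range_succ]
      have : ε N = 1 ∨ ε N = -1 := by
        show (if _ then 1 else -1 : ℤ) = 1 ∨ (if _ then 1 else -1 : ℤ) = -1
        split_ifs <;> simp
      push_cast
      rcases this with h | h <;> rw [h] <;> omega
  have habs : |∑ k ∈ Finset.range (2 * m + 5), ε k| ≤ (2 * m + 5 : ℕ) := by
    refine (Finset.abs_sum_le_sum_abs _ _).trans ?_
    have : ∀ k ∈ Finset.range (2 * m + 5), |ε k| ≤ 1 := by
      intro k _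
      show |(if _ then 1 else -1 : ℤ)| ≤ 1
      split_ifs <;> simp
    refine (Finset.sum_le_sum this).trans ?_
    simp
  rw [ZMod.intCast_zmod_eq_zero_iff_dvd] at hsum
  have hne : ∑ k ∈ Finset.range (2 * m + 5), ε k ≠ 0 := by
    intro h
    have := hodd (2 * m + 5)
    rw [h] at this
    push_cast at this
    omega
  have := Int.le_of_dvd (abs_pos.2 hne) ((dvd_abs _ _).2 hsum)
  have h2 := this.trans habs
  exact_mod_cast h2

def tG (n : ℕ) : Vg n → Bool := fun v => decide (v = Sum.inl 0 ∨ v = Sum.inl 1)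

def IndS (n : ℕ) : Set (Vg n → Bool) := {x | ∀ u v, adj u v → x u = true → x v = true → False}

theorem adj_exists {m : ℕ} (i : Fin (m + 4)) (j : Fin (m + 4)) :
    ∃ k : Fin (m + 4), k ≠ i ∧ k ≠ j := by
  have : ∃ k : Fin (m + 4), k ∉ ({i, j} : Finset (Fin (m + 4))) := by
    by_contra h
    push Not at h
    have h2 : (Finset.univ : Finset (Fin (m + 4))) ⊆ {i, j} := fun k _ => h k
    have h3 := Finset.card_le_card h2
    have h4 : ({i, j} : Finset (Fin (m + 4))).card ≤ 2 := Finset.card_le_two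
    rw [Finset.card_univ, Fintype.card_fin] at h3
    omega
  obtain ⟨k, hk⟩ := this
  simp only [Finset.mem_insert, Finset.mem_singleton, not_or] at hk
  exact ⟨k, hk⟩

/-- clique vertices are never mapped into the cycle -/
theorem hom_clique {m n : ℕ} {φ : Vg m → Vg n} (hφ : ∀ u v, adj u v → adj (φ u) (φ v))
    (i : Fin (m + 4)) : ∃ j, φ (Sum.inr i) = Sum.inr j := by
  obtain ⟨k, hk, -⟩ := adj_exists i i
  obtain ⟨l, hl, hl'⟩ := adj_exists i k
  have h1 := hφ (Sum.inr i) (Sum.inr k) (by simpa [adj] using hk.symm)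
  have h2 := hφ (Sum.inr k) (Sum.inr l) (by simpa [adj] using hl'.symm)
  have h3 := hφ (Sum.inr i) (Sum.inr l) (by simpa [adj] using hl.symm)
  rcases hi : φ (Sum.inr i) with a | a
  · exfalso
    rcases hk' : φ (Sum.inr k) with b | b
    · rcases hl'' : φ (Sum.inr l) with c | c
      · rw [hi, hk'] at h1
        rw [hk', hl''] at h2
        rw [hi, hl''] at h3
        exact no_triangle h1 h2 h3
      · rw [hk', hl''] at h2
        exact h2
    · rw [hi, hk'] at h1
      exact h1
  · exact ⟨a, rfl⟩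

theorem hom_edge {m n : ℕ} (hmn : m ≠ n) {φ : Vg m → Vg n}
    (hφ : ∀ u v, adj u v → adj (φ u) (φ v)) : tG n ∘ φ ∈ IndS m := by
  classical
  intro u v huv hu hv
  simp only [tG, Function.comp, decide_eq_true_eq] at hu hv
  have hle : m ≤ n := by
    choose g hg using fun i => hom_clique hφ i
    have hinj : Function.Injective g := by
      intro i j hij
      by_contra hne
      have := hφ (Sum.inr i) (Sum.inr j) (by simpa [adj] using hne)
      rw [hg, hg] at this
      exact this hij
    have := Fintype.card_le_of_injective g hinj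
    simp only [Fintype.card_fin] at this
    omega
  rcases u with a | i
  · -- the edge lies in the cycle: the whole cycle maps to the cycle
    have hcyc : ∀ k : ℕ, ∃ b, φ (Sum.inl (a + k)) = Sum.inl b := by
      intro k
      induction k with
      | zero =>
        rcases hu with hu | hu <;> exact ⟨_, by simpa using hu⟩
      | succ k ih =>
        obtain ⟨b, hb⟩ := ih
        have h1 := hφ (Sum.inl (a + k)) (Sum.inl (a + (k + 1 : ℕ))) (by
          simp only [adj]; left; push_cast; ring)
        rcases h2 : φ (Sum.inl (a + (k + 1 : ℕ))) with c | c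
        · exact ⟨c, rfl⟩
        · rw [hb, h2] at h1
          exact h1.elim
    have hcyc' : ∀ x, ∃ b, φ (Sum.inl x) = Sum.inl b := by
      intro x
      have := hcyc (x - a).val
      rwa [ZMod.natCast_zmod_val, add_sub_cancel] at this
    choose c hc using hcyc'
    have := cycle_le (m := m) (n := n) c (by
      intro x
      have h1 := hφ (Sum.inl x) (Sum.inl (x + 1)) (by simp [adj])
      rw [hc, hc] at h1
      exact h1)
    omega
  · obtain ⟨j, hj⟩ := hom_clique hφ i
    rw [hj] at hu
    rcases hu with hu | hu <;> cases hu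

/-- pigeonhole: four clique vertices cannot be covered by three independent sets -/
theorem three_colour {m : ℕ} (x y z : Vg m → Bool) (hx : x ∈ IndS m) (hy : y ∈ IndS m)
    (hz : z ∈ IndS m) (hcov : ∀ v, x v = true ∨ y v = true ∨ z v = true) : False := by
  have key : ∀ (w : Vg m → Bool), w ∈ IndS m → ∀ i j : Fin (m + 4), i ≠ j →
      w (Sum.inr i) = true → w (Sum.inr j) = true → False := by
    intro w hw i j hij hi hj
    exact hw (Sum.inr i) (Sum.inr j) (by simpa [adj] using hij) hi hj
  have h0 := hcov (Sum.inr ⟨0, by omega⟩)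
  have h1 := hcov (Sum.inr ⟨1, by omega⟩)
  have h2 := hcov (Sum.inr ⟨2, by omega⟩)
  have h3 := hcov (Sum.inr ⟨3, by omega⟩)
  have d : ∀ (a b : ℕ) (ha : a < m + 4) (hb : b < m + 4), a ≠ b →
      (⟨a, ha⟩ : Fin (m + 4)) ≠ ⟨b, hb⟩ := by
    intro a b ha hb hab h
    exact hab (by simpa using h)
  have X := key x hx
  have Y := key y hy
  have Z := key z hz
  rcases h0 with h0 | h0 | h0 <;> rcases h1 with h1 | h1 | h1 <;>
    rcases h2 with h2 | h2 | h2 <;> rcases h3 with h3 | h3 | h3 <;>
    first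
      | exact X _ _ (d 0 1 _ _ (by norm_num)) h0 h1
      | exact Y _ _ (d 0 1 _ _ (by norm_num)) h0 h1
      | exact Z _ _ (d 0 1 _ _ (by norm_num)) h0 h1
      | exact X _ _ (d 0 2 _ _ (by norm_num)) h0 h2
      | exact Y _ _ (d 0 2 _ _ (by norm_num)) h0 h2
      | exact Z _ _ (d 0 2 _ _ (by norm_num)) h0 h2
      | exact X _ _ (d 0 3 _ _ (by norm_num)) h0 h3
      | exact Y _ _ (d 0 3 _ _ (by norm_num)) h0 h3
      | exact Z _ _ (d 0 3 _ _ (by norm_num)) h0 h3
      | exact X _ _ (d 1 2 _ _ (by norm_num)) h1 h2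
      | exact Y _ _ (d 1 2 _ _ (by norm_num)) h1 h2
      | exact Z _ _ (d 1 2 _ _ (by norm_num)) h1 h2
      | exact X _ _ (d 1 3 _ _ (by norm_num)) h1 h3
      | exact Y _ _ (d 1 3 _ _ (by norm_num)) h1 h3
      | exact Z _ _ (d 1 3 _ _ (by norm_num)) h1 h3
      | exact X _ _ (d 2 3 _ _ (by norm_num)) h2 h3
      | exact Y _ _ (d 2 3 _ _ (by norm_num)) h2 h3
      | exact Z _ _ (d 2 3 _ _ (by norm_num)) h2 h3

end Pool.Agent.Lib.MP_2f3cff_al
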