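import Pool.Agent.Lib.MP_2f3cff_al.Flags

set_option autoImplicit false

namespace Pool.Agent.Lib.MP_2f3cff_al

/-- restrictions of members of `C` -/
def Str (C : Fam) : Fam := fun n => {f | ∃ h, Mem C h ∧ IsRestriction f (tot h)}

theorem tot_mem {C X : Fam} (hX : X ∈ IStr C) {n : ℕ} {h : (Fin (n + 1) → Bool) → Bool}
    (hh : Mem C h) : tot h ∈ X n := by
  have : tot h ∈ totalPart X n := by
    rw [hX.2.2]
    exact hh
  exact this.1

theorem mem_of_tot {C X : Fam} (hX : X ∈ IStr C) {n : ℕ} {h : (Fin (n + 1) → Bool) → Bool}
    (hh : tot h ∈ X n) : Mem C h := by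
  have : tot h ∈ totalPart X n := ⟨hh, isTotal_tot h⟩
  rw [hX.2.2] at this
  exact this

theorem Str_le {C X : Fam} (hX : X ∈ IStr C) : Str C ≤ X := by
  rintro n f ⟨h, hh, hr⟩
  exact hX.2.1 n _ _ (tot_mem hX hh) hr

/-- evaluate a partial member at total members -/
theorem probe {C X : Fam} (hX : X ∈ IStr C) {n m : ℕ} {f : PFn (n + 1)} (hf : f ∈ X n)
    (g : Fin (n + 1) → (Fin (m + 1) → Bool) → Bool) (hg : ∀ i, Mem C (g i))
    (r : (Fin (m + 1) → Bool) → Bool) (hr : ∀ x, f (fun i => g i x) = some (r x)) :
    Mem C r := by
  apply mem_of_tot hX
  have h1 := hX.1.2 n m f (fun i => tot (g i)) hf (fun i => tot_mem hX (hg i))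
  have h2 : comp f (fun i => tot (g i)) = tot r := by
    funext x
    show _ = some (r x)
    rw [comp_eq_some]
    exact ⟨fun i => g i x, fun i => rfl, hr x⟩
  rwa [h2] at h1

/-- a restriction of a composition -/
theorem mk_mem {C X : Fam} (hX : X ∈ IStr C) {n m : ℕ} {f : PFn (n + 1)} (hf : f ∈ X n)
    (g : Fin (n + 1) → PFn (m + 1)) (hg : ∀ i, g i ∈ X m) (f' : PFn (m + 1))
    (h : ∀ x b, f' x = some b → ∃ y : Fin (n + 1) → Bool, (∀ i, g i x = some (y i)) ∧
      f y = some b) : f' ∈ X m := by
  refine hX.2.1 m _ _ (hX.1.2 n m f g hf hg) (fun x => ?_)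
  rcases hx : f' x with _ | b
  · exact Or.inl rfl
  · right
    symm
    rw [comp_eq_some]
    exact h x b hx

theorem proj_memX {C X : Fam} (hX : X ∈ IStr C) {n : ℕ} (i : Fin (n + 1)) :
    (proj i : PFn (n + 1)) ∈ X n := hX.1.1 n i

theorem UU_mem {D : Fam} (hD : IsBooleanClone D) : (IStr D).Nonempty :=
  ⟨_, mem_IStr hD (J := Empty) (fun _ => Unit) (fun _ => ∅) (fun j => j.elim)⟩

theorem embed_trivial {C D : Fam} (hD : IsBooleanClone D)
    (h : ∀ X ∈ IStr C, ∀ (n : ℕ) (f : PFn (n + 1)), f ∈ X n → f ∈ Str C n) :
    Nonempty (IStr C ↪o IStr D) := by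
  obtain ⟨E, hE⟩ := UU_mem hD
  refine ⟨OrderEmbedding.ofMapLEIff (fun _ => ⟨E, hE⟩) ?_⟩
  intro X Y
  constructor
  · intro _ n f hf
    exact Str_le Y.2 n (h X.1 X.2 n f hf)
  · intro _
    exact le_rfl

theorem inter_UU_mem {C D X : Fam} (hD : IsBooleanClone D)
    (hDC : D ≤ C) (hX : X ∈ IStr C) : inter X (UU D) ∈ IStr D := by
  refine ⟨inter_clone hX.1 (PP_clone _ _), inter_strong hX.2.1 (PP_strong _ _), ?_⟩
  funext n
  ext f
  constructor
  · rintro ⟨⟨-, hf⟩, ht⟩
    obtain ⟨h, rfl⟩ := exists_tot ht
    exact hf n (fun i x => x i) (fun i => hD.1.1 n i) h (fun w => rfl)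
  · intro hf
    have ht := hD.2 n f hf
    obtain ⟨h, rfl⟩ := exists_tot ht
    exact ⟨⟨tot_mem hX (hDC n hf), fun k => relOf_inv hD.1 hf k⟩, ht⟩

theorem embed_inter {C D : Fam} (hD : IsBooleanClone D) (hDC : D ≤ C)
    (H : ∀ X ∈ IStr C, ∀ Y ∈ IStr C, inter X (UU D) ≤ inter Y (UU D) → X ≤ Y) :
    Nonempty (IStr C ↪o IStr D) := by
  refine ⟨OrderEmbedding.ofMapLEIff
    (fun X => ⟨inter X.1 (UU D), inter_UU_mem hD hDC X.2⟩) ?_⟩
  intro X Y
  constructor
  · exact H X.1 X.2 Y.1 Y.2
  · intro hXY n f hf
    exact ⟨hXY n hf.1, hf.2⟩

/-! ### the one-element intervals -/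

theorem triv_all {C : Fam} (hall : ∀ (n : ℕ) (h : (Fin (n + 1) → Bool) → Bool), Mem C h) :
    ∀ X ∈ IStr C, ∀ (n : ℕ) (f : PFn (n + 1)), f ∈ X n → f ∈ Str C n := by
  intro X _ n f _
  refine ⟨fun x => (f x).getD false, hall n _, fun x => ?_⟩
  rcases h : f x with _ | b
  · exact Or.inl rfl
  · right
    simp [tot, h]

theorem triv_T0 {C : Fam} (hC0 : Sub C QT0)
    (hall : ∀ (n : ℕ) (h : (Fin (n + 1) → Bool) → Bool), QT0 h → Mem C h) :
    ∀ X ∈ IStr C, ∀ (n : ℕ) (f : PFn (n + 1)), f ∈ X n → f ∈ Str C n := by
  intro X hX n f hf
  have h0 : f (fun _ => false) ≠ some true := by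
    intro h0
    have := probe hX hf (m := 0) (fun _ _ => false) (fun _ => hall 0 _ rfl) (fun _ => true)
      (fun _ => h0)
    have := hC0 0 _ this
    cases this
  refine ⟨fun x => (f x).getD false, hall n _ ?_, fun x => ?_⟩
  · show (f (fun _ => false)).getD false = false
    rcases h : f (fun _ => false) with _ | b
    · rfl
    · cases b
      · rfl
      · exact absurd h h0
  · rcases h : f x with _ | b
    · exact Or.inl rfl
    · right
      simp [tot, h]

theorem triv_S {C : Fam} (hCS : Sub C QS)
    (hall : ∀ (n : ℕ) (h : (Fin (n + 1) → Bool) → Bool), QS h → Mem C h) :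
    ∀ X ∈ IStr C, ∀ (n : ℕ) (f : PFn (n + 1)), f ∈ X n → f ∈ Str C n := by
  intro X hX n f hf
  have h0 : ∀ x c, f x = some c → f (fun i => !(x i)) ≠ some c := by
    intro x c hx hx'
    have := probe hX hf (m := 0) (fun i y => xor (y 0) (x i)) (fun i => hall 0 _ (by
      intro a
      show xor (!(a 0)) (x i) = !(xor (a 0) (x i))
      cases a 0 <;> cases x i <;> rfl)) (fun _ => c) (fun y => by
        cases hy : y 0
        · simpa using hx
        · simpa using hx')
    have := hCS 0 _ this (fun _ => false)
    cases c <;> cases this
  refine ⟨fun x => match f x with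
    | some b => b
    | none => match f (fun i => !(x i)) with
      | some b => !b
      | none => x 0, hall n _ ?_, fun x => ?_⟩
  · intro x
    have e : (fun i => !(!(x i))) = x := by funext i; simp
    have h1 := h0 x
    simp only [e]
    rcases hx : f x with _ | b <;> rcases hx' : f (fun i => !(x i)) with _ | b' <;> simp only
    · simp
    · have := h1 b hx
      rw [hx'] at this
      revert this
      cases b <;> cases b' <;> simp
  · rcases h : f x with _ | b
    · exact Or.inl rfl
    · right
      simp [tot, h]

theorem triv_M {C : Fam} (hCM : Sub C QM)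
    (hall : ∀ (n : ℕ) (h : (Fin (n + 1) → Bool) → Bool), QM h → Mem C h) :
    ∀ X ∈ IStr C, ∀ (n : ℕ) (f : PFn (n + 1)), f ∈ X n → f ∈ Str C n := by
  classical
  intro X hX n f hf
  have h0 : ∀ x y, (∀ i, x i = true → y i = true) → f x = some true → f y ≠ some false := by
    intro x y hxy hx hy
    have := probe hX hf (m := 0) (fun i z => x i || (y i && z 0)) (fun i => hall 0 _ (by
      intro a b hab
      have := hab 0
      cases a 0 <;> cases b 0 <;> cases x i <;> cases y i <;> simp_all))
      (fun z => !(z 0)) (fun z => by
        cases hz : z 0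
        · have e : (fun i => x i || (y i && false)) = x := by funext i; simp
          rw [e, hx]
          rfl
        · have e : (fun i => x i || (y i && true)) = y := by
            funext i
            have := hxy i
            cases h1 : x i <;> cases h2 : y i <;> simp_all
          rw [e, hy]
          rfl)
    have := hCM 0 _ this (fun _ => false) (fun _ => true) (by simp) rfl
    cases this
  refine ⟨fun y => decide (∃ x, (∀ i, x i = true → y i = true) ∧ f x = some true),
    hall n _ ?_, fun y => ?_⟩
  · intro a b hab ha
    simp only [decide_eq_true_eq] at ha ⊢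
    obtain ⟨x, hx, hx'⟩ := ha
    exact ⟨x, fun i hi => hab i (hx i hi), hx'⟩
  · rcases h : f y with _ | b
    · exact Or.inl rfl
    · right
      simp only [tot, Option.some.injEq]
      cases b
      · symm
        apply decide_eq_false
        rintro ⟨x, hx, hx'⟩
        exact h0 x y hx hx' h
      · symm
        apply decide_eq_true
        exact ⟨y, fun i hi => hi, h⟩

/-! ### the interval of `T0 ∩ T1` -/

def e0 : PFn 1 := fun x => if x 0 = false then some true else none
def e1 : PFn 1 := fun x => if x 0 = true then some false else none

theorem e0_UU {D : Fam} (h1 : Sub D QT1) : e0 ∈ UU D 0 := by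
  intro k X hX z hz
  exfalso
  have : X 0 = fun _ => false := by
    funext w
    have := hz w
    unfold e0 at this
    by_contra hne
    rw [if_neg hne] at this
    cases this
  have h2 : Mem D (X 0) := hX 0
  rw [this] at h2
  have := h1 k _ h2
  cases this

theorem e1_UU {D : Fam} (h0 : Sub D QT0) : e1 ∈ UU D 0 := by
  intro k X hX z hz
  exfalso
  have : X 0 = fun _ => true := by
    funext w
    have := hz w
    unfold e1 at this
    by_contra hne
    rw [if_neg hne] at this
    cases this
  have h2 : Mem D (X 0) := hX 0
  rw [this] at h2
  have := h0 k _ h2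
  cases this

theorem embed_T01 {C D : Fam} (hD : IsBooleanClone D) (hDC : D ≤ C)
    (hC0 : Sub C QT0) (hC1 : Sub C QT1)
    (hall : ∀ (n : ℕ) (h : (Fin (n + 1) → Bool) → Bool), QT0 h → QT1 h → Mem C h) :
    Nonempty (IStr C ↪o IStr D) := by
  classical
  have hD0 : Sub D QT0 := fun n h hh => hC0 n h (hDC n hh)
  have hD1 : Sub D QT1 := fun n h hh => hC1 n h (hDC n hh)
  refine embed_inter hD hDC (fun X hX Y hY hXY n f hf => ?_)
  -- `f 0 = some true` and `f 1` defined is impossible
  have hdiag : ∀ b b' : Bool, f (fun _ => false) = some b → f (fun _ => true) = some b' →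
      b = false ∧ b' = true := by
    intro b b' h0 h1
    have := probe hX hf (m := 0) (fun _ y => y 0) (fun _ => hall 0 _ rfl rfl)
      (fun y => if y 0 = true then b' else b) (fun y => by
        cases hy : y 0
        · simpa using h0
        · simpa using h1)
    exact ⟨by simpa [QT0] using hC0 0 _ this, by simpa [QT1] using hC1 0 _ this⟩
  by_cases ha : f (fun _ => false) = some true
  · have h1 : f (fun _ => true) = none := by
      rcases h1 : f (fun _ => true) with _ | b'
      · rfl
      · exact absurd (hdiag true b' ha h1).1 (by simp)
    have he : e0 ∈ X 0 := by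
      refine mk_mem hX hf (fun _ => proj 0) (fun _ => proj_memX hX 0) e0 (fun x b hx => ?_)
      unfold e0 at hx
      by_cases hx0 : x 0 = false
      · rw [if_pos hx0] at hx
        refine ⟨fun _ => false, fun i => ?_, ?_⟩
        · simp [proj, hx0]
        · rw [ha, hx]
      · rw [if_neg hx0] at hx
        cases hx
    have heY : e0 ∈ Y 0 := (hXY 0 (⟨he, e0_UU hD1⟩ : e0 ∈ inter X (UU D) 0)).1
    -- the auxiliary total functions
    let u : (Fin (n + 1) → Bool) → Bool := fun x => decide (x = fun _ => true)
    have hu : Mem C u := by
      refine hall n u ?_ ?_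
      · show decide _ = false
        apply decide_eq_false
        intro h
        have := congrFun h 0
        cases this
      · show decide _ = true
        exact decide_eq_true rfl
    let H : (Fin (n + 1 + 1) → Bool) → Bool := fun y =>
      y 0 && (if (fun i : Fin (n + 1) => y i.succ) = (fun _ => true) then true
        else (f (fun i : Fin (n + 1) => y i.succ)).getD false)
    have hH : Mem C H := by
      refine hall (n + 1) H ?_ ?_
      · rfl
      · show (true && (if _ then true else _)) = true
        rw [if_pos rfl]
        rfl
    let g0 : PFn (n + 1) := fun x => if u x = false then some true else none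
    have hg0 : g0 ∈ Y n := by
      refine mk_mem hY heY (fun _ => tot u) (fun _ => tot_mem hY hu) g0 (fun x b hx => ?_)
      refine ⟨fun _ => u x, fun _ => rfl, ?_⟩
      exact hx
    refine mk_mem hY (tot_mem hY hH) (Fin.cases g0 (fun i => proj i)) ?_ f (fun x b hx => ?_)
    · intro i
      refine Fin.cases ?_ (fun i => ?_) i
      · exact hg0
      · exact proj_memX hY i
    · have hx1 : x ≠ fun _ => true := by
        rintro rfl
        rw [h1] at hx
        cases hx
      refine ⟨Fin.cases true x, fun i => ?_, ?_⟩
      · refine Fin.cases ?_ (fun i => ?_) i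
        · show (if u x = false then some true else none) = some true
          rw [if_pos (decide_eq_false hx1)]
        · rfl
      · show some (true && (if (fun i : Fin (n + 1) => x i) = (fun _ => true) then true
          else (f (fun i : Fin (n + 1) => x i)).getD false)) = some b
        rw [if_neg hx1, hx]
        rfl
  by_cases hb : f (fun _ => true) = some false
  · have h1 : f (fun _ => false) = none := by
      rcases h1 : f (fun _ => false) with _ | b'
      · rfl
      · exact absurd (hdiag b' false h1 hb).2 (by simp)
    have he : e1 ∈ X 0 := by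
      refine mk_mem hX hf (fun _ => proj 0) (fun _ => proj_memX hX 0) e1 (fun x b hx => ?_)
      unfold e1 at hx
      by_cases hx0 : x 0 = true
      · rw [if_pos hx0] at hx
        refine ⟨fun _ => true, fun i => ?_, ?_⟩
        · simp [proj, hx0]
        · rw [hb, hx]
      · rw [if_neg hx0] at hx
        cases hx
    have heY : e1 ∈ Y 0 := (hXY 0 (⟨he, e1_UU hD0⟩ : e1 ∈ inter X (UU D) 0)).1
    let u : (Fin (n + 1) → Bool) → Bool := fun x => decide (x ≠ fun _ => false)
    have hu : Mem C u := by
      refine hall n u ?_ ?_
      · show decide _ = false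
        exact decide_eq_false (fun h => h rfl)
      · show decide _ = true
        apply decide_eq_true
        intro h
        have := congrFun h 0
        cases this
    let H : (Fin (n + 1 + 1) → Bool) → Bool := fun y =>
      y 0 || (if (fun i : Fin (n + 1) => y i.succ) = (fun _ => false) then false
        else (f (fun i : Fin (n + 1) => y i.succ)).getD true)
    have hH : Mem C H := by
      refine hall (n + 1) H ?_ ?_
      · show (false || (if _ then false else _)) = false
        rw [if_pos rfl]
        rfl
      · rfl
    let g0 : PFn (n + 1) := fun x => if u x = true then some false else none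
    have hg0 : g0 ∈ Y n := by
      refine mk_mem hY heY (fun _ => tot u) (fun _ => tot_mem hY hu) g0 (fun x b hx => ?_)
      refine ⟨fun _ => u x, fun _ => rfl, ?_⟩
      exact hx
    refine mk_mem hY (tot_mem hY hH) (Fin.cases g0 (fun i => proj i)) ?_ f (fun x b hx => ?_)
    · intro i
      refine Fin.cases ?_ (fun i => ?_) i
      · exact hg0
      · exact proj_memX hY i
    · have hx1 : x ≠ fun _ => false := by
        rintro rfl
        rw [h1] at hx
        cases hx
      refine ⟨Fin.cases false x, fun i => ?_, ?_⟩
      · refine Fin.cases ?_ (fun i => ?_) i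
        · show (if u x = true then some false else none) = some false
          rw [if_pos (decide_eq_true hx1)]
        · rfl
      · show some (false || (if (fun i : Fin (n + 1) => x i) = (fun _ => false) then false
          else (f (fun i : Fin (n + 1) => x i)).getD true)) = some b
        rw [if_neg hx1, hx]
        rfl
  · -- `f` is a restriction of a member of `C`
    apply Str_le hY
    refine ⟨fun x => (f x).getD (x 0), hall n _ ?_ ?_, fun x => ?_⟩
    · show (f (fun _ => false)).getD false = false
      rcases h : f (fun _ => false) with _ | b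
      · rfl
      · cases b
        · rfl
        · exact absurd h ha
    · show (f (fun _ => true)).getD true = true
      rcases h : f (fun _ => true) with _ | b
      · rfl
      · cases b
        · exact absurd h hb
        · rfl
    · rcases h : f x with _ | b
      · exact Or.inl rfl
      · right
        simp [tot, h]

/-! ### the interval of `M ∩ T0` -/

def nu : PFn 3 := fun x => if x 0 = false ∧ x 2 = true then some (!(x 1)) else none

theorem nu_UU {D : Fam} (h1 : Sub D QT1) : nu ∈ UU D 2 := by
  intro k X hX z hz
  exfalso
  have : X 0 = fun _ => false := by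
    funext w
    have := hz w
    unfold nu at this
    by_contra hne
    rw [if_neg (fun h => hne h.1)] at this
    cases this
  have h2 : Mem D (X 0) := hX 0
  rw [this] at h2
  have := h1 k _ h2
  cases this

theorem embed_MT0 {C D : Fam} (hD : IsBooleanClone D) (hDC : D ≤ C)
    (hC0 : Sub C QT0) (hCM : Sub C QM) (hD1 : Sub D QT1)
    (hall : ∀ (n : ℕ) (h : (Fin (n + 1) → Bool) → Bool), QT0 h → QM h → Mem C h) :
    Nonempty (IStr C ↪o IStr D) := by
  classical
  refine embed_inter hD hDC (fun X hX Y hY hXY n f hf => ?_)
  have ha : f (fun _ => false) ≠ some true := by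
    intro h0
    have := probe hX hf (m := 0) (fun _ _ => false) (fun _ => hall 0 _ rfl (by
      intro a b _ h; cases h)) (fun _ => true) (fun _ => h0)
    have := hC0 0 _ this
    cases this
  by_cases hmono : ∀ x y, (∀ i, x i = true → y i = true) → f x = some true → f y ≠ some false
  · apply Str_le hY
    refine ⟨fun y => decide (∃ x, (∀ i, x i = true → y i = true) ∧ f x = some true),
      hall n _ ?_ ?_, fun y => ?_⟩
    · show decide _ = false
      apply decide_eq_false
      rintro ⟨x, hx, hx'⟩
      have : x = fun _ => false := by
        funext i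
        by_contra hi
        have := hx i (by simpa using hi)
        cases this
      rw [this] at hx'
      exact ha hx'
    · intro a b hab ha
      simp only [decide_eq_true_eq] at ha ⊢
      obtain ⟨x, hx, hx'⟩ := ha
      exact ⟨x, fun i hi => hab i (hx i hi), hx'⟩
    · rcases h : f y with _ | b
      · exact Or.inl rfl
      · right
        simp only [tot, Option.some.injEq]
        cases b
        · symm
          apply decide_eq_false
          rintro ⟨x, hx, hx'⟩
          exact hmono x y hx hx' h
        · symm
          apply decide_eq_true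
          exact ⟨y, fun i hi => hi, h⟩
  push Not at hmono
  obtain ⟨x0, y0, hxy, hx0, hy0⟩ := hmono
  -- `f 0` is undefined
  have hnone : f (fun _ => false) = none := by
    rcases h0 : f (fun _ => false) with _ | b
    · rfl
    exfalso
    have hb : b = false := by
      cases b
      · rfl
      · exact absurd h0 ha
    rw [hb] at h0
    have := probe hX hf (m := 1) (fun i z => z 1 && (x0 i || (y0 i && z 0)))
      (fun i => hall 1 _ rfl (by
        intro a b hab
        have h1 := hab 0
        have h2 := hab 1
        revert h1 h2
        simp only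
        cases a 0 <;> cases b 0 <;> cases a 1 <;> cases b 1 <;> cases x0 i <;> cases y0 i <;>
          simp))
      (fun z => z 1 && !(z 0)) (fun z => by
        cases hz1 : z 1
        · have e : (fun i => false && (x0 i || (y0 i && z 0))) = fun _ => false := by
            funext i; simp
          rw [e, h0]
          rfl
        · cases hz : z 0
          · have e : (fun i => true && (x0 i || (y0 i && false))) = x0 := by funext i; simp
            rw [e, hx0]
            rfl
          · have e : (fun i => true && (x0 i || (y0 i && true))) = y0 := by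
              funext i
              have := hxy i
              revert this
              cases h1 : x0 i <;> cases h2 : y0 i <;> simp
            rw [e, hy0]
            rfl)
    have := hCM 1 _ this (fun i => if i = 0 then false else true) (fun _ => true)
      (by intro i _; rfl) rfl
    cases this
  have hnu : nu ∈ X 2 := by
    refine mk_mem hX hf (fun i => if x0 i = true then proj 2 else if y0 i = true then proj 1
      else proj 0) (fun i => ?_) nu (fun x b hx => ?_)
    · by_cases h1 : x0 i = true
      · simp only [h1, if_true]
        exact proj_memX hX _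
      · by_cases h2 : y0 i = true
        · simp only [h1, h2, if_true]
          exact proj_memX hX _
        · simp only [h1, h2]
          exact proj_memX hX _
    · unfold nu at hx
      by_cases hc : x 0 = false ∧ x 2 = true
      · rw [if_pos hc] at hx
        refine ⟨if x 1 = true then y0 else x0, fun i => ?_, ?_⟩
        · have h3 := hxy i
          cases h4 : x 1 <;> cases h1 : x0 i <;> cases h2 : y0 i <;>
            simp [h1, h2, h4, proj, hc.1, hc.2] at h3 ⊢
        · cases h4 : x 1
          · rw [h4] at hx
            simp only [Bool.not_false] at hx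
            rw [← hx]
            exact hx0
          · rw [h4] at hx
            simp only [Bool.not_true] at hx
            rw [← hx]
            exact hy0
      · rw [if_neg hc] at hx
        cases hx
  have hnuY : nu ∈ Y 2 := (hXY 2 (⟨hnu, nu_UU hD1⟩ : nu ∈ inter X (UU D) 2)).1
  -- partial negations
  let w : (Fin (n + 1) → Bool) → Bool := fun x => decide (x ≠ fun _ => false)
  have hw : Mem C w := by
    refine hall n w ?_ ?_
    · show decide _ = false
      exact decide_eq_false (fun h => h rfl)
    · intro a b hab ha
      simp only [w, decide_eq_true_eq] at ha ⊢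
      intro hb
      apply ha
      funext i
      by_contra hi
      have := hab i (by simpa using hi)
      rw [hb] at this
      cases this
  have hz : Mem C (fun _ : Fin (n + 1) → Bool => false) := hall n _ rfl (by
    intro a b _ h; cases h)
  let N : Fin (n + 1) → PFn (n + 1) := fun i x => if w x = true then some (!(x i)) else none
  have hN : ∀ i, N i ∈ Y n := by
    intro i
    refine mk_mem hY hnuY (fun j => if j = 0 then tot (fun _ => false) else if j = 1 then proj i
      else tot w) (fun j => ?_) (N i) (fun x b hx => ?_)
    · by_cases h1 : j = 0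
      · simp only [h1, if_true]
        exact tot_mem hY hz
      · by_cases h2 : j = 1
        · simp only [h2, if_true]
          exact proj_memX hY _
        · simp only [h1, h2, if_false]
          exact tot_mem hY hw
    · simp only [N] at hx
      by_cases hc : w x = true
      · rw [if_pos hc] at hx
        refine ⟨fun j => if j = 0 then false else if j = 1 then x i else true, fun j => ?_, ?_⟩
        · by_cases h1 : j = 0
          · simp [h1, tot]
          · by_cases h2 : j = 1
            · simp [h2, proj]
            · simp [h1, h2, tot, hc]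
        · unfold nu
          simpa using hx
      · rw [if_neg hc] at hx
        cases hx
  -- the monotone function
  let H : (Fin ((n + 1 + n) + 1) → Bool) → Bool := fun y =>
    decide (∃ x : Fin (n + 1) → Bool, f x = some true ∧
      (∀ i : Fin (n + 1), x i = true → y (Fin.castAdd (n + 1) i) = true) ∧
      (∀ i : Fin (n + 1), x i = false → y (Fin.natAdd (n + 1) i) = true))
  have hH : Mem C H := by
    refine hall (n + 1 + n) H ?_ ?_
    · show decide _ = false
      apply decide_eq_false
      rintro ⟨x, -, h1, h2⟩
      cases hx : x 0
      · exact absurd (h2 0 hx) (by simp)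
      · exact absurd (h1 0 hx) (by simp)
    · intro a b hab ha
      simp only [H, decide_eq_true_eq] at ha ⊢
      obtain ⟨x, hx, h1, h2⟩ := ha
      exact ⟨x, hx, fun i hi => hab _ (h1 i hi), fun i hi => hab _ (h2 i hi)⟩
  refine mk_mem hY (tot_mem hY hH)
    (fun i => Fin.addCases (m := n + 1) (n := n + 1) (motive := fun _ => PFn (n + 1))
      (fun i => proj i) (fun i => N i) i) ?_ f (fun x b hx => ?_)
  · intro i
    refine Fin.addCases (m := n + 1) (n := n + 1)
      (motive := fun i => (Fin.addCases (m := n + 1) (n := n + 1) (motive := fun _ => PFn (n + 1))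
      (fun i => proj i) (fun i => N i) i : PFn (n + 1)) ∈ Y n) (fun i => ?_) (fun i => ?_) i
    · rw [Fin.addCases_left]
      exact proj_memX hY i
    · rw [Fin.addCases_right]
      exact hN i
  · have hx1 : x ≠ fun _ => false := by
      rintro rfl
      rw [hnone] at hx
      cases hx
    refine ⟨fun i => Fin.addCases (m := n + 1) (n := n + 1) (motive := fun _ => Bool)
      (fun i => x i) (fun i => !(x i)) i, fun i => ?_, ?_⟩
    · refine Fin.addCases (m := n + 1) (n := n + 1)
        (motive := fun i => (Fin.addCases (m := n + 1) (n := n + 1)
          (motive := fun _ => PFn (n + 1)) (fun i => proj i) (fun i => N i) i : PFn (n + 1)) x =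
          some (Fin.addCases (m := n + 1) (n := n + 1) (motive := fun _ => Bool)
      (fun i => x i) (fun i => !(x i)) i)) (fun i => ?_) (fun i => ?_) i
      · rw [Fin.addCases_left, Fin.addCases_left]
        rfl
      · rw [Fin.addCases_right, Fin.addCases_right]
        show (if w x = true then some (!(x i)) else none) = _
        rw [if_pos (decide_eq_true hx1)]
    · simp only [tot, Option.some.injEq, H]
      cases b
      · apply decide_eq_false
        rintro ⟨x', hx', h1, h2⟩
        have : x' = x := by
          funext i
          have h1 := h1 i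
          have h2 := h2 i
          rw [Fin.addCases_left] at h1
          rw [Fin.addCases_right] at h2
          revert h1 h2
          cases x' i <;> cases x i <;> simp
        rw [this, hx] at hx'
        cases hx'
      · apply decide_eq_true
        refine ⟨x, hx, fun i hi => ?_, fun i hi => ?_⟩
        · rw [Fin.addCases_left]
          exact hi
        · rw [Fin.addCases_right]
          simp [hi]

end Pool.Agent.Lib.MP_2f3cff_al
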