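import Pool.Agent.Lib.MP_2f3cff_al.LinFam
import Pool.Agent.Lib.MP_2f3cff_al.Dual

set_option autoImplicit false

namespace Pool.Agent.Lib.MP_2f3cff_al

theorem lin_form {k : ℕ} {h : (Fin (k + 1) → Bool) → Bool} (hL : QLin h) :
    ∃ F : Finset (Fin (k + 1)), ∀ x, b2 (h x) = ∑ i ∈ F, b2 (x i) + b2 (h (fun _ => false)) := by
  classical
  obtain ⟨L, hL'⟩ := lin_rep hL
  refine ⟨Finset.univ.filter (fun i => L (Pi.single i 1) = 1), fun x => ?_⟩
  rw [hL']
  congr 1
  have h1 : (fun i => b2 (x i)) = ∑ i, Pi.single i (b2 (x i)) :=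
    (Finset.univ_sum_single _).symm
  rw [Finset.sum_filter]
  conv_lhs => rw [h1, map_sum]
  have key : ∀ (i : Fin (k + 1)) (z : Bool),
      L (Pi.single i (b2 z)) = if L (Pi.single i 1) = 1 then b2 z else 0 := by
    intro i z
    cases z
    · rw [b2_false, Pi.single_zero, map_zero]
      simp
    · rw [b2_true]
      rcases zmod2_cases (L (Pi.single i 1)) with h2 | h2
      · rw [h2]
        simp
      · rw [h2]
        simp
  exact Finset.sum_congr rfl (fun i _ => key i (x i))

theorem lin_gen {D : Fam} (hD : IsBooleanClone D) (hx : M2 D xor) (h0 : M1 D (fun _ => false))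
    (h1 : M1 D (fun _ => true)) {n : ℕ} {h : (Fin (n + 1) → Bool) → Bool} (hL : QLin h) :
    Mem D h := by
  classical
  obtain ⟨F, hF⟩ := lin_form hL
  have key : ∀ (c : Bool) (F : Finset (Fin (n + 1))),
      Mem D (fun x : Fin (n + 1) → Bool => decide (∑ i ∈ F, b2 (x i) + b2 c = 1)) := by
    intro c F
    induction F using Finset.induction_on with
    | empty =>
      have : (fun x : Fin (n + 1) → Bool => decide (∑ i ∈ (∅ : Finset (Fin (n + 1))), b2 (x i)
          + b2 c = 1)) = fun _ => c := by
        funext x
        apply b2_inj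
        rw [b2_dec_one]
        simp
      rw [this]
      cases c
      · exact Mem.const hD h0 n
      · exact Mem.const hD h1 n
    | insert i F hi ih =>
      have : (fun x : Fin (n + 1) → Bool => decide (∑ i ∈ insert i F, b2 (x i)
          + b2 c = 1)) = fun x => xor (x i) (decide (∑ i ∈ F, b2 (x i) + b2 c = 1)) := by
        funext x
        apply b2_inj
        rw [b2_dec_one, b2_xor, b2_dec_one, Finset.sum_insert hi]
        ring
      rw [this]
      exact M2.app hD hx (Mem.proj hD i) ih
  have : h = fun x => decide (∑ i ∈ F, b2 (x i) + b2 (h (fun _ => false)) = 1) := by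
    funext x
    apply b2_inj
    rw [b2_dec_one, hF]
  rw [this]
  exact key _ F

theorem lin_all {D : Fam} (hD : IsBooleanClone D) (hL : Sub D QLin) (h0 : ¬ Sub D QT0)
    (h1 : ¬ Sub D QT1) (hS : ¬ Sub D QS) (hU : ¬ Sub D QU) :
    ∀ (n : ℕ) (h : (Fin (n + 1) → Bool) → Bool), QLin h → Mem D h := by
  classical
  -- unary members
  obtain ⟨u, hu, hu'⟩ : ∃ u, M1 D u ∧ u false = true := by
    unfold Sub at h0
    push Not at h0
    obtain ⟨n, h, hh, hq⟩ := h0
    exact ⟨_, Mem.diag hD hh, by simpa [QT0] using hq⟩
  obtain ⟨v, hv, hv'⟩ : ∃ v, M1 D v ∧ v true = false := by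
    unfold Sub at h1
    push Not at h1
    obtain ⟨n, h, hh, hq⟩ := h1
    exact ⟨_, Mem.diag hD hh, by simpa [QT1] using hq⟩
  obtain ⟨c, hc⟩ : ∃ c : Bool, M1 D (fun _ => c) := by
    unfold Sub at hS
    push Not at hS
    obtain ⟨n, h, hh, hq⟩ := hS
    unfold QS at hq
    push Not at hq
    obtain ⟨a, ha⟩ := hq
    have hl := hL n h hh a (fun _ => true)
    have e : (fun i => xor (a i) true) = fun i => !(a i) := by funext i; simp
    rw [e] at hl
    refine ⟨h (fun _ => false), M1.congr (Mem.diag hD hh) (fun x => ?_)⟩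
    cases x
    · rfl
    · revert hl ha
      generalize h (fun i => !(a i)) = p
      generalize h a = q
      generalize h (fun _ => true) = r
      generalize h (fun _ => false) = s
      cases p <;> cases q <;> cases r <;> cases s <;> simp
  have hcc : M1 D (fun _ => false) ∧ M1 D (fun _ => true) := by
    cases c
    · refine ⟨hc, ?_⟩
      have h3 : M1 D (fun _ => u false) := M1.app hD hu (h := fun _ : Fin 1 → Bool => false) hc
      rwa [hu'] at h3
    · refine ⟨?_, hc⟩
      have h3 : M1 D (fun _ => v true) := M1.app hD hv (h := fun _ : Fin 1 → Bool => true) hc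
      rwa [hv'] at h3
  obtain ⟨hf, ht⟩ := hcc
  obtain ⟨c, hxc⟩ : ∃ c : Bool, M2 D (fun x y => xor (xor x y) c) := by
    unfold Sub at hU
    push Not at hU
    obtain ⟨n, h, hh, hq⟩ := hU
    obtain ⟨F, hF⟩ := lin_form (hL n h hh)
    have hcard : 2 ≤ F.card := by
      by_contra hlt
      apply hq
      rcases Nat.lt_or_ge F.card 1 with h2 | h2
      · left
        have : F = ∅ := Finset.card_eq_zero.1 (by omega)
        refine ⟨h (fun _ => false), fun x => b2_inj ?_⟩
        rw [hF, this]
        simp
      · right
        obtain ⟨i, hi⟩ := Finset.card_eq_one.1 (by omega : F.card = 1)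
        refine ⟨i, h (fun _ => false), fun x => b2_inj ?_⟩
        rw [hF, hi, b2_xor]
        simp
    obtain ⟨i, hi, j, hj, hij⟩ := Finset.one_lt_card.1 (by omega : 1 < F.card)
    refine ⟨h (fun _ => false), ?_⟩
    have hb := Mem.mk2 hD hh (fun l x y => if l = i then x else if l = j then y else false)
      (fun l => by
        by_cases h1 : l = i
        · simpa [h1] using M2.fst hD
        · by_cases h2 : l = j
          · have : ¬ j = i := fun h => hij h.symm
            simpa [h2, this] using M2.snd hD
          · simpa [h1, h2] using M2.const hD hf)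
    refine M2.congr hb (fun x y => ?_)
    apply b2_inj
    rw [hF, b2_xor, b2_xor]
    congr 1
    have h3 : ∀ l ∈ F, b2 (if l = i then x else if l = j then y else false) =
        (if l = i then b2 x else 0) + (if l = j then b2 y else 0) := by
      intro l _
      by_cases h1 : l = i
      · have : ¬ i = j := hij
        simp [h1, this]
      · by_cases h2 : l = j
        · have : ¬ j = i := fun h => hij h.symm
          simp [h2, this]
        · simp [h1, h2, b2_false]
    rw [Finset.sum_congr rfl h3, Finset.sum_add_distrib, Finset.sum_ite_eq', Finset.sum_ite_eq',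
      if_pos hi, if_pos hj]
  have hxor : M2 D xor := by
    cases c
    · exact M2.congr hxc (fun x y => by simp)
    · refine M2.congr (M2.comp2 hD hxc hxc (M2.const hD hf)) (fun x y => ?_)
      cases x <;> cases y <;> rfl
  intro n h hh
  exact lin_gen hD hxor hf ht hh

end Pool.Agent.Lib.MP_2f3cff_al
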