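import Pool.Agent.Lib.MP_2f3cff_al.Small

set_option autoImplicit false

namespace Pool.Agent.Lib.MP_2f3cff_al

def b2 (b : Bool) : ZMod 2 := if b then 1 else 0

theorem b2_true : b2 true = 1 := rfl
theorem b2_false : b2 false = 0 := rfl

theorem two_zmod : (1 : ZMod 2) + 1 = 0 := by decide

theorem b2_xor (a b : Bool) : b2 (xor a b) = b2 a + b2 b := by
  revert a b; decide

theorem b2_not (a : Bool) : b2 (!a) = b2 a + 1 := by
  revert a; decide

theorem b2_inj {a b : Bool} (h : b2 a = b2 b) : a = b := by
  revert a b; decide

theorem zmod2_cases (z : ZMod 2) : z = 0 ∨ z = 1 := by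
  revert z; decide

theorem zmod2_add_self (z : ZMod 2) : z + z = 0 := by
  revert z; decide

theorem b2_decide {p : Prop} [Decidable p] : b2 (decide p) = if p then 1 else 0 := by
  unfold b2
  by_cases h : p <;> simp [h]

theorem b2_dec_one (z : ZMod 2) : b2 (decide (z = 1)) = z := by
  revert z; decide

theorem lin_rep {k : ℕ} {h : (Fin (k + 1) → Bool) → Bool} (hL : QLin h) :
    ∃ L : (Fin (k + 1) → ZMod 2) →+ ZMod 2,
      ∀ x, b2 (h x) = L (fun i => b2 (x i)) + b2 (h (fun _ => false)) := by
  let H : (Fin (k + 1) → ZMod 2) → ZMod 2 := fun y =>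
    b2 (h (fun i => decide (y i = 1))) + b2 (h (fun _ => false))
  have hadd : ∀ y y', H (y + y') = H y + H y' := by
    intro y y'
    show b2 (h (fun i => decide ((y + y') i = 1))) + _ = (b2 (h _) + _) + (b2 (h _) + _)
    have e : (fun i => decide ((y + y') i = 1)) =
        (fun i => xor (decide (y i = 1)) (decide (y' i = 1))) := by
      funext i
      apply b2_inj
      rw [b2_xor, b2_dec_one, b2_dec_one, b2_dec_one]
      rfl
    rw [e, hL, b2_xor, b2_xor]
    ring_nf
  refine ⟨AddMonoidHom.mk' H hadd, fun x => ?_⟩
  show _ = (b2 (h (fun i => decide (b2 (x i) = 1))) + b2 (h (fun _ => false))) + _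
  have e : (fun i => decide (b2 (x i) = 1)) = x := by
    funext i
    apply b2_inj
    rw [b2_dec_one]
  rw [e, add_assoc, zmod2_add_self, add_zero]

theorem le_of_inj {a b : ℕ} {f : (Fin a → ZMod 2) → (Fin b → ZMod 2)}
    (hf : Function.Injective f) : a ≤ b := by
  have := Fintype.card_le_of_injective f hf
  simp only [Fintype.card_fun, ZMod.card, Fintype.card_fin] at this
  exact (Nat.pow_le_pow_iff_right (by norm_num)).1 this

/-- choose an index `c` outside a list of at most 4 values and a given index -/
theorem avoid' {N : ℕ} {β : Type} (hN : 6 ≤ N ∨ (5 ≤ N)) (v1 v2 v3 : Fin N ⊕ β) (a : Fin N) :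
    ∃ c : Fin N, c ≠ a ∧ v1 ≠ Sum.inl c ∧ v2 ≠ Sum.inl c ∧ v3 ≠ Sum.inl c := by
  classical
  have hN' : 5 ≤ N := by rcases hN with h | h <;> omega
  by_contra hcon
  push Not at hcon
  -- cover of `Fin N`
  let S : Finset (Fin N) := {a} ∪ (Finset.univ.filter (fun c => v1 = Sum.inl c)) ∪
    (Finset.univ.filter (fun c => v2 = Sum.inl c)) ∪
    (Finset.univ.filter (fun c => v3 = Sum.inl c))
  have hcard : ∀ v : Fin N ⊕ β, (Finset.univ.filter (fun c => v = Sum.inl c)).card ≤ 1 := by
    intro v
    rw [Finset.card_le_one]
    intro x hx y hy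
    simp only [Finset.mem_filter, Finset.mem_univ, true_and] at hx hy
    rw [hx] at hy
    exact Sum.inl_injective hy
  have hS : S.card ≤ 4 := by
    refine (Finset.card_union_le _ _).trans ?_
    have h3 := hcard v3
    have := (Finset.card_union_le ({a} ∪ (Finset.univ.filter (fun c => v1 = Sum.inl c)))
      (Finset.univ.filter (fun c => v2 = Sum.inl c)))
    have h2 := hcard v2
    have := (Finset.card_union_le ({a} : Finset (Fin N))
      (Finset.univ.filter (fun c => v1 = Sum.inl c)))
    have h1 := hcard v1
    have h0 : ({a} : Finset (Fin N)).card = 1 := Finset.card_singleton a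
    omega
  have huniv : (Finset.univ : Finset (Fin N)) ⊆ S := by
    intro c _
    simp only [S, Finset.mem_union, Finset.mem_singleton, Finset.mem_filter, Finset.mem_univ,
      true_and]
    by_cases h0 : c = a
    · tauto
    by_cases h1 : v1 = Sum.inl c
    · tauto
    by_cases h2 : v2 = Sum.inl c
    · tauto
    · exact Or.inr (hcon c h0 h1 h2)
  have := Finset.card_le_card huniv
  rw [Finset.card_univ, Fintype.card_fin] at this
  omega

theorem avoid4 {N : ℕ} {β : Type} (hN : 6 ≤ N) (v1 v2 v3 v4 : Fin N ⊕ β) :
    ∃ c : Fin N, v1 ≠ Sum.inl c ∧ v2 ≠ Sum.inl c ∧ v3 ≠ Sum.inl c ∧ v4 ≠ Sum.inl c := by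
  rcases h4 : v4 with a | b
  · obtain ⟨c, hc, h1, h2, h3⟩ := avoid' (Or.inl hN) v1 v2 v3 a
    exact ⟨c, h1, h2, h3, fun h => hc (Sum.inl_injective h).symm⟩
  · obtain ⟨c, hc, h1, h2, h3⟩ := avoid' (Or.inl hN) v1 v2 v3 ⟨0, by omega⟩
    exact ⟨c, h1, h2, h3, by simp⟩

/-! ### linear functions preserving 0 -/

abbrev Va (n : ℕ) : Type := Fin (2 * n + 5) ⊕ {v : Fin (n + 2) → ZMod 2 // v ≠ 0}

def rhoA (n : ℕ) : Set (Va n → Bool) := {x | ∑ a, b2 (x (Sum.inl a)) = 0 ∧
  ∀ u v w : {v : Fin (n + 2) → ZMod 2 // v ≠ 0}, u.1 + v.1 + w.1 = 0 →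
    b2 (x (Sum.inr u)) + b2 (x (Sum.inr v)) + b2 (x (Sum.inr w)) = 0}

open Classical in
noncomputable def tA (n : ℕ) : Va n → Bool := fun p => decide (p = Sum.inl 0)

open Classical in
noncomputable def pairA {n : ℕ} (a c : Fin (2 * n + 5)) : Va n → Bool :=
  fun p => decide (p = Sum.inl a ∨ p = Sum.inl c)

def coordA {n : ℕ} (i : Fin (n + 2)) : Va n → Bool
  | Sum.inl _ => false
  | Sum.inr v => decide (v.1 i = 1)

theorem pairA_true {n : ℕ} {a c : Fin (2 * n + 5)} {p : Va n} :
    pairA a c p = true ↔ p = Sum.inl a ∨ p = Sum.inl c := by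
  simp [pairA]

theorem b2_pairA {n : ℕ} {a c : Fin (2 * n + 5)} (hac : a ≠ c) (p : Va n) [DecidableEq (Va n)] :
    b2 (pairA a c p) = (if p = Sum.inl a then 1 else 0) + (if p = Sum.inl c then 1 else 0) := by
  by_cases h1 : p = Sum.inl a
  · have h2 : p ≠ Sum.inl c := by
      rw [h1]; intro h; exact hac (Sum.inl_injective h)
    have h3 : pairA a c p = true := pairA_true.2 (Or.inl h1)
    rw [h3, if_pos h1, if_neg h2]
    rfl
  · by_cases h2 : p = Sum.inl c
    · have h3 : pairA a c p = true := pairA_true.2 (Or.inr h2)
      rw [h3, if_neg h1, if_pos h2]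
      rfl
    · have h3 : pairA a c p = false := by
        by_contra h
        rcases pairA_true.1 (by simpa using h) with h | h
        · exact h1 h
        · exact h2 h
      rw [h3, if_neg h1, if_neg h2]
      rfl

theorem pairA_mem {n : ℕ} {a c : Fin (2 * n + 5)} (hac : a ≠ c) : pairA a c ∈ rhoA n := by
  classical
  constructor
  · rw [Finset.sum_congr rfl (fun x _ => b2_pairA hac (Sum.inl x)), Finset.sum_add_distrib]
    simp only [Sum.inl.injEq, Finset.sum_ite_eq', Finset.mem_univ, if_true]
    exact two_zmod
  · intro u v w _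
    rw [b2_pairA hac, b2_pairA hac, b2_pairA hac]
    simp

theorem coordA_mem {n : ℕ} (i : Fin (n + 2)) : coordA i ∈ rhoA n := by
  constructor
  · simp [coordA, b2_false]
  · intro u v w h
    simp only [coordA, b2_dec_one]
    exact congrFun h i

theorem exists_trueA {n : ℕ} (p : Va n) : ∃ x ∈ rhoA n, x p = true := by
  rcases p with a | v
  · obtain ⟨c, hc, -⟩ := avoid' (β := Unit) (Or.inr (by omega)) (Sum.inr ()) (Sum.inr ())
      (Sum.inr ()) a
    exact ⟨pairA a c, pairA_mem hc.symm, pairA_true.2 (Or.inl rfl)⟩
  · have : ∃ i, v.1 i = 1 := by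
      by_contra h
      push Not at h
      apply v.2
      funext i
      rcases zmod2_cases (v.1 i) with h' | h'
      · exact h'
      · exact absurd h' (h i)
    obtain ⟨i, hi⟩ := this
    exact ⟨coordA i, coordA_mem i, by simp [coordA, hi]⟩

theorem sepA {n : ℕ} {u v : Va n} (h : u ≠ v) : ∃ x ∈ rhoA n, x u ≠ x v := by
  classical
  have key : ∀ (a : Fin (2 * n + 5)) (v : Va n), v ≠ Sum.inl a →
      ∃ x ∈ rhoA n, x (Sum.inl a) ≠ x v := by
    intro a v hv
    obtain ⟨c, hc, h1, -⟩ := avoid' (Or.inr (by omega)) v v v a
    refine ⟨pairA a c, pairA_mem hc.symm, ?_⟩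
    have h2 : pairA a c (Sum.inl a) = true := pairA_true.2 (Or.inl rfl)
    rw [h2]
    intro h3
    rcases pairA_true.1 h3.symm with h4 | h4
    · exact hv h4
    · exact h1 h4
  rcases u with a | u
  · exact key a v h.symm
  rcases v with a | v
  · obtain ⟨x, hx, hx'⟩ := key a _ h
    exact ⟨x, hx, hx'.symm⟩
  · have : ∃ i, u.1 i ≠ v.1 i := by
      by_contra hcon
      push Not at hcon
      exact h (by rw [Subtype.ext (funext hcon)])
    obtain ⟨i, hi⟩ := this
    refine ⟨coordA i, coordA_mem i, fun h' => hi ?_⟩
    have := congrArg b2 h'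
    simpa only [coordA, b2_dec_one] using this

theorem small_LinT0 {D : Fam} (hD : IsBooleanClone D) (h : Sub D QLin) (h0 : Sub D QT0) :
    Nonempty (Set ℕ ↪o IStr D) := by
  classical
  refine embed_of_family hD (fun n => Va n) (fun n => rhoA n) (fun n => tA n) ?_ ?_ ?_ ?_ ?_ ?_
  · exact fun n => ⟨_, coordA_mem 0⟩
  · exact fun n u v huv => sepA huv
  · intro n hn
    have := hn.1
    have e : ∀ a : Fin (2 * n + 5), b2 (tA n (Sum.inl a)) = if a = 0 then 1 else 0 := by
      intro a
      simp only [tA, b2_decide, Sum.inl.injEq]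
    rw [Finset.sum_congr rfl (fun a _ => e a)] at this
    simp at this
  · intro m n hmn φ hφ
    -- values on pairs
    have hpair : ∀ (a c : Fin (2 * n + 5)), a ≠ c → ∀ u v w : {v : Fin (m + 2) → ZMod 2 // v ≠ 0},
        u.1 + v.1 + w.1 = 0 → φ (Sum.inr u) ≠ Sum.inl c → φ (Sum.inr v) ≠ Sum.inl c →
        φ (Sum.inr w) ≠ Sum.inl c →
        (if φ (Sum.inr u) = Sum.inl a then (1 : ZMod 2) else 0) +
        (if φ (Sum.inr v) = Sum.inl a then 1 else 0) +
        (if φ (Sum.inr w) = Sum.inl a then 1 else 0) = 0 := by
      intro a c hac u v w huvw h1 h2 h3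
      have := (hφ _ (pairA_mem hac)).2 u v w huvw
      simp only [Function.comp] at this
      rw [b2_pairA hac, b2_pairA hac, b2_pairA hac, if_neg h1, if_neg h2, if_neg h3] at this
      simpa using this
    have et : ∀ p : Va n, b2 (tA n p) = if p = Sum.inl 0 then 1 else 0 := by
      intro p
      simp only [tA, b2_decide]
    constructor
    · by_contra hne
      -- every fibre over the first part is odd
      have hcnt : ∀ c : Fin (2 * n + 5), ∃ a, φ (Sum.inl a) = Sum.inl c := by
        intro c
        by_contra hcon
        push Not at hcon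
        have hc0 : (0 : Fin (2 * n + 5)) ≠ c := by
          rintro rfl
          apply hne
          simp only [Function.comp]
          rw [Finset.sum_congr rfl (fun a _ => et _),
            Finset.sum_congr rfl (fun a _ => if_neg (hcon a))]
          simp
        have := (hφ _ (pairA_mem hc0)).1
        simp only [Function.comp] at this hne
        rw [Finset.sum_congr rfl (fun a _ => b2_pairA hc0 _)] at this
        rw [Finset.sum_congr rfl (fun a _ => et _)] at hne
        apply hne
        refine Eq.trans (Finset.sum_congr rfl (fun a _ => ?_)) this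
        rw [if_neg (hcon a), add_zero]
      choose g hg using hcnt
      have hginj : Function.Injective g := by
        intro c c' hcc
        have := hg c
        rw [hcc, hg c'] at this
        exact (Sum.inl_injective this).symm
      have h1 := Fintype.card_le_of_injective g hginj
      simp only [Fintype.card_fin] at h1
      -- injectivity
      have hinj : ∀ u v : {v : Fin (m + 2) → ZMod 2 // v ≠ 0},
          φ (Sum.inr u) = φ (Sum.inr v) → u = v := by
        intro u v huv
        by_contra hne'
        have hw : u.1 + v.1 ≠ 0 := by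
          intro h'
          apply hne'
          apply Subtype.ext
          funext i
          have := congrFun h' i
          simp only [Pi.add_apply, Pi.zero_apply] at this
          revert this
          generalize u.1 i = p
          generalize v.1 i = q
          revert p q
          decide
        obtain ⟨x, hx, hx'⟩ := exists_trueA (φ (Sum.inr ⟨u.1 + v.1, hw⟩))
        have := (hφ x hx).2 u v ⟨u.1 + v.1, hw⟩ (by
          funext i
          simp only [Pi.add_apply, Pi.zero_apply]
          generalize u.1 i = p
          generalize v.1 i = q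
          revert p q
          decide)
        simp only [Function.comp] at this
        rw [huv, hx', zmod2_add_self, b2_true] at this
        exact absurd this (by decide)
      have hB : ∀ u : {v : Fin (m + 2) → ZMod 2 // v ≠ 0}, ∃ u', φ (Sum.inr u) = Sum.inr u' := by
        intro u
        rcases hu : φ (Sum.inr u) with a | u'
        · exfalso
          -- another vector
          have hex : ∃ v : Fin (m + 2) → ZMod 2, v ≠ 0 ∧ v ≠ u.1 := by
            by_cases h : (Pi.single 0 1 : Fin (m + 2) → ZMod 2) = u.1
            · refine ⟨Pi.single 1 1, ?_, ?_⟩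
              · intro h'
                have := congrFun h' 1
                simp at this
              · rw [← h]
                intro h'
                have := congrFun h' 1
                simp at this
            · refine ⟨_, ?_, h⟩
              intro h'
              have := congrFun h' 0
              simp at this
          obtain ⟨v, hv0, hvu⟩ := hex
          have hw : u.1 + v ≠ 0 := by
            intro h'
            apply hvu
            funext i
            have := congrFun h' i
            simp only [Pi.add_apply, Pi.zero_apply] at this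
            revert this
            generalize u.1 i = p
            generalize v i = q
            revert p q
            decide
          have hv' : φ (Sum.inr ⟨v, hv0⟩) ≠ Sum.inl a := by
            rw [← hu]
            intro h'
            exact hvu (congrArg Subtype.val (hinj _ _ h'))
          have hw' : φ (Sum.inr ⟨u.1 + v, hw⟩) ≠ Sum.inl a := by
            rw [← hu]
            intro h'
            have := congrArg Subtype.val (hinj _ _ h')
            simp only at this
            exact hv0 (by simpa using this)
          obtain ⟨c, hc, c1, c2, c3⟩ := avoid' (Or.inr (by omega)) (φ (Sum.inr u))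
            (φ (Sum.inr ⟨v, hv0⟩)) (φ (Sum.inr ⟨u.1 + v, hw⟩)) a
          have := hpair a c hc.symm u ⟨v, hv0⟩ ⟨u.1 + v, hw⟩ (by
            funext i
            simp only [Pi.add_apply, Pi.zero_apply]
            generalize u.1 i = p
            generalize v i = q
            revert p q
            decide) c1 c2 c3
          rw [if_pos hu, if_neg hv', if_neg hw'] at this
          simp at this
        · exact ⟨u', rfl⟩
      choose g' hg' using hB
      have hle : m + 2 ≤ n + 2 := by
        refine le_of_inj (f := fun u => if h : u = 0 then 0 else (g' ⟨u, h⟩).1) ?_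
        intro u v huv
        simp only at huv
        by_cases hu : u = 0 <;> by_cases hv : v = 0
        · rw [hu, hv]
        · rw [dif_pos hu, dif_neg hv] at huv
          exact absurd huv.symm (g' ⟨v, hv⟩).2
        · rw [dif_neg hu, dif_pos hv] at huv
          exact absurd huv (g' ⟨u, hu⟩).2
        · rw [dif_neg hu, dif_neg hv] at huv
          have h2 := Subtype.ext huv
          have h3 := hinj ⟨u, hu⟩ ⟨v, hv⟩ (by rw [hg', hg', h2])
          exact congrArg Subtype.val h3
      omega
    · intro u v w huvw
      simp only [Function.comp]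
      rw [et, et, et]
      obtain ⟨c, hc, c1, c2, c3⟩ := avoid' (Or.inr (by omega)) (φ (Sum.inr u))
            (φ (Sum.inr v)) (φ (Sum.inr w)) 0
      exact hpair 0 c hc.symm u v w huvw c1 c2 c3
  · intro n k g hg
    refine Pres_tot (fun X hX => ?_)
    obtain ⟨L, hL⟩ := lin_rep (h k g hg)
    have hg0 : g (fun _ => false) = false := h0 k g hg
    have hL' : ∀ x, b2 (g x) = L (fun i => b2 (x i)) := by
      intro x
      rw [hL, hg0, b2_false, add_zero]
    constructor
    · simp only [hL']
      rw [← map_sum]
      have : ∑ a : Fin (2 * n + 5), (fun i => b2 (X i (Sum.inl a))) = 0 := by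
        funext i
        rw [Finset.sum_apply]
        exact (hX i).1
      rw [this, map_zero]
    · intro u v w huvw
      simp only [hL']
      rw [← map_add, ← map_add]
      have : (fun i => b2 (X i (Sum.inr u))) + (fun i => b2 (X i (Sum.inr v))) +
          (fun i => b2 (X i (Sum.inr w))) = 0 := by
        funext i
        exact (hX i).2 u v w huvw
      rw [this, map_zero]
  · intro n k ψ hψ
    exfalso
    obtain ⟨x, hx, hx'⟩ := exists_trueA (ψ (fun _ => false))
    have := h0 k _ (hψ x hx)
    simp only [QT0, Function.comp] at this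
    rw [hx'] at this
    cases this

end Pool.Agent.Lib.MP_2f3cff_al
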