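import Pool.Agent.Lib.MP_2f3cff_al.LinFam

set_option autoImplicit false

namespace Pool.Agent.Lib.MP_2f3cff_al

/-! ### linear self-dual functions -/

abbrev Vs (n : ℕ) : Type := Fin (2 * n + 6) ⊕ (Fin (n + 3) → ZMod 2)

def rhoS (n : ℕ) : Set (Vs n → Bool) := {x | ∑ a, b2 (x (Sum.inl a)) = 1 ∧
  ∀ p q : Fin (n + 3) → ZMod 2, p ≠ 0 → q ≠ 0 → p ≠ q →
    b2 (x (Sum.inr 0)) + b2 (x (Sum.inr p)) + b2 (x (Sum.inr q)) + b2 (x (Sum.inr (p + q))) = 1}

open Classical in
noncomputable def tS (n : ℕ) : Vs n → Bool
  | Sum.inl _ => false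
  | Sum.inr v => decide (v = 0)

open Classical in
noncomputable def elS {n : ℕ} (a : Fin (2 * n + 6)) (c s : ZMod 2) (i : Fin (n + 3)) : Vs n → Bool
  | Sum.inl a' => decide (a' = a)
  | Sum.inr v => xor (decide (v = 0)) (decide (c + s * v i = 1))

theorem b2_elS_inr {n : ℕ} (a : Fin (2 * n + 6)) (c s : ZMod 2) (i : Fin (n + 3))
    (v : Fin (n + 3) → ZMod 2) [Decidable (v = 0)] :
    b2 (elS a c s i (Sum.inr v)) = (if v = 0 then 1 else 0) + (c + s * v i) := by
  simp only [elS]
  rw [b2_xor, b2_dec_one]
  by_cases hv : v = 0 <;> simp [hv, b2_true, b2_false]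

theorem add_ne_zero' {n : ℕ} {p q : Fin n → ZMod 2} (h : p ≠ q) : p + q ≠ 0 := by
  intro h'
  apply h
  funext i
  have := congrFun h' i
  simp only [Pi.add_apply, Pi.zero_apply] at this
  revert this
  generalize p i = r
  generalize q i = s
  revert r s
  decide

theorem elS_mem {n : ℕ} (a : Fin (2 * n + 6)) (c s : ZMod 2) (i : Fin (n + 3)) :
    elS a c s i ∈ rhoS n := by
  classical
  constructor
  · simp only [elS, b2_decide]
    simp
  · intro p q hp hq hpq
    rw [b2_elS_inr, b2_elS_inr, b2_elS_inr, b2_elS_inr, if_pos rfl, if_neg hp, if_neg hq,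
      if_neg (add_ne_zero' hpq)]
    simp only [Pi.add_apply, Pi.zero_apply]
    generalize p i = r
    generalize q i = t
    revert r t c s
    decide

theorem exists_coord {n : ℕ} {v : Fin n → ZMod 2} (hv : v ≠ 0) : ∃ i, v i = 1 := by
  by_contra h
  push Not at h
  apply hv
  funext i
  rcases zmod2_cases (v i) with h' | h'
  · exact h'
  · exact absurd h' (h i)

theorem agreeS {n : ℕ} (u v : Vs n) : ∃ x ∈ rhoS n, x u = x v := by
  classical
  have key : ∀ (a : Fin (2 * n + 6)) (w : Fin (n + 3) → ZMod 2),
      ∃ x ∈ rhoS n, x (Sum.inl a) = x (Sum.inr w) := by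
    intro a w
    refine ⟨elS a ((if w = 0 then 1 else 0) + 1) 0 0, elS_mem _ _ _ _, ?_⟩
    apply b2_inj
    rw [b2_elS_inr]
    simp only [elS, b2_decide]
    by_cases hw : w = 0 <;> simp [hw, two_zmod]
  rcases u with a | u
  · rcases v with a' | v
    · obtain ⟨c, h1, h2, -⟩ := avoid' (β := Unit) (N := 2 * n + 6) (Or.inl (by omega))
        (Sum.inl a') (Sum.inr ()) (Sum.inr ()) a
      refine ⟨elS c 0 0 0, elS_mem _ _ _ _, ?_⟩
      have h3 : a ≠ c := h1.symm
      have h4 : a' ≠ c := fun h => h2 (by rw [h])
      simp only [elS]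
      rw [decide_eq_false h3, decide_eq_false h4]
    · exact key a v
  · rcases v with a | v
    · obtain ⟨x, hx, hx'⟩ := key a u
      exact ⟨x, hx, hx'.symm⟩
    · by_cases hu : u = 0
      · by_cases hv : v = 0
        · exact ⟨_, elS_mem 0 0 0 0, by rw [hu, hv]⟩
        · obtain ⟨i, hi⟩ := exists_coord hv
          refine ⟨_, elS_mem 0 0 1 i, ?_⟩
          apply b2_inj
          rw [b2_elS_inr, b2_elS_inr, if_pos hu, if_neg hv, hi, hu]
          simp
      · by_cases hv : v = 0
        · obtain ⟨i, hi⟩ := exists_coord hu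
          refine ⟨_, elS_mem 0 0 1 i, ?_⟩
          apply b2_inj
          rw [b2_elS_inr, b2_elS_inr, if_pos hv, if_neg hu, hi, hv]
          simp
        · refine ⟨_, elS_mem 0 0 0 0, ?_⟩
          apply b2_inj
          rw [b2_elS_inr, b2_elS_inr, if_neg hv, if_neg hu]
          simp

theorem sepS {n : ℕ} {u v : Vs n} (h : u ≠ v) : ∃ x ∈ rhoS n, x u ≠ x v := by
  classical
  have key : ∀ (a : Fin (2 * n + 6)) (v : Vs n), v ≠ Sum.inl a →
      ∃ x ∈ rhoS n, x (Sum.inl a) ≠ x v := by
    intro a v hv
    rcases v with a' | w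
    · refine ⟨_, elS_mem a 0 0 0, ?_⟩
      have h4 : a' ≠ a := fun h => hv (by rw [h])
      simp only [elS]
      rw [decide_eq_false h4]
      simp
    · refine ⟨elS a (if w = 0 then 1 else 0) 0 0, elS_mem _ _ _ _, ?_⟩
      intro h'
      have := congrArg b2 h'
      rw [b2_elS_inr] at this
      simp only [elS, b2_decide] at this
      by_cases hw : w = 0 <;> simp [hw, two_zmod] at this
  rcases u with a | u
  · exact key a v h.symm
  rcases v with a | v
  · obtain ⟨x, hx, hx'⟩ := key a _ h
    exact ⟨x, hx, hx'.symm⟩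
  · have huv : u ≠ v := fun h' => h (by rw [h'])
    by_cases hu : u = 0
    · have hv : v ≠ 0 := fun h' => huv (by rw [hu, h'])
      refine ⟨_, elS_mem 0 0 0 0, ?_⟩
      intro h'
      have := congrArg b2 h'
      rw [b2_elS_inr, b2_elS_inr, if_pos hu, if_neg hv] at this
      simp at this
    · by_cases hv : v = 0
      · refine ⟨_, elS_mem 0 0 0 0, ?_⟩
        intro h'
        have := congrArg b2 h'
        rw [b2_elS_inr, b2_elS_inr, if_pos hv, if_neg hu] at this
        simp at this
      · have : ∃ i, u i ≠ v i := by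
          by_contra hcon
          push Not at hcon
          exact huv (funext hcon)
        obtain ⟨i, hi⟩ := this
        refine ⟨_, elS_mem 0 0 1 i, ?_⟩
        intro h'
        have := congrArg b2 h'
        rw [b2_elS_inr, b2_elS_inr, if_neg hv, if_neg hu] at this
        exact hi (by simpa using this)

/-- a nonzero vector different from a given one -/
theorem exists_other {n : ℕ} (u : Fin (n + 3) → ZMod 2) :
    ∃ v : Fin (n + 3) → ZMod 2, v ≠ 0 ∧ v ≠ u := by
  by_cases h : (Pi.single 0 1 : Fin (n + 3) → ZMod 2) = u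
  · refine ⟨Pi.single 1 1, ?_, ?_⟩
    · intro h'
      have := congrFun h' 1
      simp at this
    · rw [← h]
      intro h'
      have := congrFun h' 1
      simp at this
  · refine ⟨_, ?_, h⟩
    intro h'
    have := congrFun h' 0
    simp at this

theorem small_LinS {D : Fam} (hD : IsBooleanClone D) (h : Sub D QLin) (hS : Sub D QS) :
    Nonempty (Set ℕ ↪o IStr D) := by
  classical
  refine embed_of_family hD (fun n => Vs n) (fun n => rhoS n) (fun n => tS n) ?_ ?_ ?_ ?_ ?_ ?_
  · exact fun n => ⟨_, elS_mem 0 0 0 0⟩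
  · exact fun n u v huv => sepS huv
  · intro n hn
    have := hn.1
    simp [tS, b2_false] at this
  · intro m n hmn φ hφ
    -- comparison of `t` with `elS a`
    have et : ∀ (p : Vs n) (a : Fin (2 * n + 6)),
        b2 (elS a 0 0 0 p) = b2 (tS n p) + (if p = Sum.inl a then 1 else 0) := by
      intro p a
      rcases p with a' | v
      · simp only [elS, tS, b2_decide, b2_false, Sum.inl.injEq, zero_add]
      · rw [b2_elS_inr]
        simp only [tS, b2_decide]
        simp
    have hquad : ∀ (a : Fin (2 * n + 6)) (p q : Fin (m + 3) → ZMod 2), p ≠ 0 → q ≠ 0 → p ≠ q →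
        (b2 (tS n (φ (Sum.inr 0))) + (if φ (Sum.inr 0) = Sum.inl a then 1 else 0)) +
        (b2 (tS n (φ (Sum.inr p))) + (if φ (Sum.inr p) = Sum.inl a then 1 else 0)) +
        (b2 (tS n (φ (Sum.inr q))) + (if φ (Sum.inr q) = Sum.inl a then 1 else 0)) +
        (b2 (tS n (φ (Sum.inr (p + q)))) +
          (if φ (Sum.inr (p + q)) = Sum.inl a then 1 else 0)) = 1 := by
      intro a p q hp hq hpq
      have := (hφ _ (elS_mem a 0 0 0)).2 p q hp hq hpq
      simp only [Function.comp] at this
      rw [et, et, et, et] at this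
      exact this
    constructor
    · by_contra hne
      simp only [Function.comp] at hne
      have hne0 : ∑ a, b2 (tS n (φ (Sum.inl a))) = 0 := by
        rcases zmod2_cases (∑ a, b2 (tS n (φ (Sum.inl a)))) with h' | h'
        · exact h'
        · exact absurd h' hne
      have hcnt : ∀ c : Fin (2 * n + 6), ∃ a, φ (Sum.inl a) = Sum.inl c := by
        intro c
        by_contra hcon
        push Not at hcon
        have := (hφ _ (elS_mem c 0 0 0)).1
        simp only [Function.comp] at this
        rw [Finset.sum_congr rfl (fun a _ => et _ c), Finset.sum_add_distrib, hne0,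
          Finset.sum_congr rfl (fun a _ => if_neg (hcon a))] at this
        simp at this
      choose g hg using hcnt
      have hginj : Function.Injective g := by
        intro c c' hcc
        have := hg c
        rw [hcc, hg c'] at this
        exact (Sum.inl_injective this).symm
      have h1 := Fintype.card_le_of_injective g hginj
      simp only [Fintype.card_fin] at h1
      -- two equal values in a quadruple
      have hquad2 : ∀ (x : Vs n → Bool), x ∈ rhoS n → ∀ p q : Fin (m + 3) → ZMod 2,
          p ≠ 0 → q ≠ 0 → p ≠ q →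
          b2 (x (φ (Sum.inr 0))) + b2 (x (φ (Sum.inr p))) + b2 (x (φ (Sum.inr q))) +
            b2 (x (φ (Sum.inr (p + q)))) = 1 := by
        intro x hx p q hp hq hpq
        exact (hφ x hx).2 p q hp hq hpq
      have hinj0 : ∀ p : Fin (m + 3) → ZMod 2, p ≠ 0 → φ (Sum.inr 0) ≠ φ (Sum.inr p) := by
        intro p hp heq
        obtain ⟨q, hq, hqp⟩ := exists_other p
        obtain ⟨x, hx, hx'⟩ := agreeS (φ (Sum.inr q)) (φ (Sum.inr (p + q)))
        have := hquad2 x hx p q hp hq hqp.symm
        rw [heq, hx', zmod2_add_self, zero_add, zmod2_add_self] at this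
        exact absurd this (by decide)
      have hinj : ∀ p q : Fin (m + 3) → ZMod 2, φ (Sum.inr p) = φ (Sum.inr q) → p = q := by
        intro p q heq
        by_contra hpq
        by_cases hp : p = 0
        · subst hp
          exact hinj0 q (fun h => hpq h.symm) heq
        by_cases hq : q = 0
        · subst hq
          exact hinj0 p hp heq.symm
        obtain ⟨x, hx, hx'⟩ := agreeS (φ (Sum.inr 0)) (φ (Sum.inr (p + q)))
        have := hquad2 x hx p q hp hq hpq
        rw [heq, hx'] at this
        have h2 : ∀ s t : ZMod 2, s + t + t + s ≠ 1 := by decide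
        exact h2 _ _ this
      -- values in the second part
      have hB : ∀ u : Fin (m + 3) → ZMod 2, ∃ u', φ (Sum.inr u) = Sum.inr u' := by
        intro u
        rcases hu : φ (Sum.inr u) with a | u'
        · exfalso
          -- a quadruple containing `u`
          have hex : ∃ p q : Fin (m + 3) → ZMod 2, p ≠ 0 ∧ q ≠ 0 ∧ p ≠ q ∧ (u = 0 ∨ u = p) := by
            by_cases hu0 : u = 0
            · obtain ⟨p, hp, -⟩ := exists_other (0 : Fin (m + 3) → ZMod 2)
              obtain ⟨q, hq, hqp⟩ := exists_other p
              exact ⟨p, q, hp, hq, hqp.symm, Or.inl hu0⟩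
            · obtain ⟨q, hq, hqp⟩ := exists_other u
              exact ⟨u, q, hu0, hq, hqp.symm, Or.inr rfl⟩
          obtain ⟨p, q, hp, hq, hpq, hu'⟩ := hex
          have key : ∀ c : Fin (2 * n + 6),
              (if φ (Sum.inr 0) = Sum.inl c then (1 : ZMod 2) else 0) +
              (if φ (Sum.inr p) = Sum.inl c then 1 else 0) +
              (if φ (Sum.inr q) = Sum.inl c then 1 else 0) +
              (if φ (Sum.inr (p + q)) = Sum.inl c then 1 else 0) = 0 := by
            intro c
            obtain ⟨d, d0, d1, d2, d3⟩ := avoid4 (by omega) (φ (Sum.inr 0)) (φ (Sum.inr p))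
              (φ (Sum.inr q)) (φ (Sum.inr (p + q)))
            have h1 := hquad c p q hp hq hpq
            have h2 := hquad d p q hp hq hpq
            rw [if_neg d0, if_neg d1, if_neg d2, if_neg d3] at h2
            revert h1 h2
            generalize b2 (tS n (φ (Sum.inr 0))) = z0
            generalize b2 (tS n (φ (Sum.inr p))) = z1
            generalize b2 (tS n (φ (Sum.inr q))) = z2
            generalize b2 (tS n (φ (Sum.inr (p + q)))) = z3
            intro h1 h2
            have : ∀ a0 a1 a2 a3 z0 z1 z2 z3 : ZMod 2,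
                (z0 + a0) + (z1 + a1) + (z2 + a2) + (z3 + a3) = 1 →
                (z0 + 0) + (z1 + 0) + (z2 + 0) + (z3 + 0) = 1 → a0 + a1 + a2 + a3 = 0 := by
              decide
            exact this _ _ _ _ _ _ _ _ h1 h2
          have hk := key a
          have hne : ∀ w : Fin (m + 3) → ZMod 2, w ≠ u → φ (Sum.inr w) ≠ Sum.inl a := by
            intro w hw h'
            exact hw (hinj _ _ (h'.trans hu.symm))
          have hpq0 : p + q ≠ 0 := add_ne_zero' hpq
          have hpqp : p + q ≠ p := fun h' => hq (by simpa using h')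
          rcases hu' with rfl | rfl
          · rw [if_pos hu, if_neg (hne p hp), if_neg (hne q hq), if_neg (hne _ hpq0)] at hk
            simp at hk
          · rw [if_pos hu, if_neg (hne 0 (Ne.symm hp)), if_neg (hne q (Ne.symm hpq)),
              if_neg (hne _ hpqp)] at hk
            simp at hk
        · exact ⟨u', rfl⟩
      choose g' hg' using hB
      have hle : m + 3 ≤ n + 3 := by
        refine le_of_inj (f := g') ?_
        intro u v huv
        exact hinj u v (by rw [hg', hg', huv])
      omega
    · intro p q hp hq hpq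
      simp only [Function.comp]
      obtain ⟨d, d0, d1, d2, d3⟩ := avoid4 (by omega) (φ (Sum.inr 0)) (φ (Sum.inr p))
              (φ (Sum.inr q)) (φ (Sum.inr (p + q)))
      have h2 := hquad d p q hp hq hpq
      rw [if_neg d0, if_neg d1, if_neg d2, if_neg d3] at h2
      simpa using h2
  · intro n k g hg
    refine Pres_tot (fun X hX => ?_)
    obtain ⟨L, hL⟩ := lin_rep (h k g hg)
    have hone : L (fun _ => 1) = 1 := by
      have h1 := hL (fun _ => true)
      have h2 := hS k g hg (fun _ => false)
      simp only [Bool.not_false] at h2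
      rw [h2, b2_not] at h1
      simp only [b2_true] at h1
      have : ∀ s t : ZMod 2, s + 1 = t + s → t = 1 := by decide
      exact this _ _ h1
    generalize b2 (g fun _ => false) = z at hL
    constructor
    · simp only [hL, Finset.sum_add_distrib]
      rw [← map_sum]
      have : ∑ a : Fin (2 * n + 6), (fun i => b2 (X i (Sum.inl a))) = fun _ => 1 := by
        funext i
        rw [Finset.sum_apply]
        exact (hX i).1
      rw [this, hone]
      simp only [Finset.sum_const, Finset.card_univ, Fintype.card_fin, nsmul_eq_mul]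
      push_cast
      have h2 : (2 : ZMod 2) = 0 := by decide
      have h6 : (6 : ZMod 2) = 0 := by decide
      rw [h2, h6]
      simp
    · intro p q hp hq hpq
      simp only [hL]
      have : (fun i => b2 (X i (Sum.inr 0))) + (fun i => b2 (X i (Sum.inr p))) +
          (fun i => b2 (X i (Sum.inr q))) + (fun i => b2 (X i (Sum.inr (p + q)))) =
          fun _ => 1 := by
        funext i
        exact (hX i).2 p q hp hq hpq
      rw [← this, map_add, map_add, map_add] at hone
      have key : ∀ z l0 l1 l2 l3 : ZMod 2, l0 + l1 + l2 + l3 = 1 →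
        l0 + z + (l1 + z) + (l2 + z) + (l3 + z) = 1 := by decide
      exact key _ _ _ _ _ hone
  · intro n k ψ hψ
    exfalso
    obtain ⟨x, hx, hx'⟩ := agreeS (ψ (fun _ => !false)) (ψ (fun _ => false))
    have := hS k _ (hψ x hx) (fun _ => false)
    simp only [Function.comp] at this
    rw [hx'] at this
    cases hb : x (ψ (fun _ => false)) <;> rw [hb] at this <;> cases this

end Pool.Agent.Lib.MP_2f3cff_al
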