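import Pool.Agent.Lib.MP_2f3cff_al.Intervals
import Pool.Agent.Lib.MP_2f3cff_al.LinAll
import Pool.Agent.Lib.MP_2f3cff_al.LinFam2

set_option autoImplicit false

namespace Pool.Agent.Lib.MP_2f3cff_al

/-- a clone contained both in `S` and in `M` is contained in `T02` -/
theorem T02_of_S_M {D : Fam} (hS : Sub D QS) (hM : Sub D QM) : Sub D QT02 := by
  intro n h hh a b ha hb
  by_contra hne
  push Not at hne
  have h1 := hM n h hh b (fun i => !(a i)) (fun i hi => by
    have := hne i
    cases ha' : a i
    · rfl
    · exact absurd hi (this ha')) hb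
  rw [hS n h hh, ha] at h1
  cases h1

theorem Big.mono {C D : Fam} (hDC : D ≤ C) (h : Big D) : Big C :=
  ⟨fun hs => h.t02 (fun n g hg => hs n g (hDC n hg)),
   fun hs => h.t12 (fun n g hg => hs n g (hDC n hg)),
   fun hs => h.lam (fun n g hg => hs n g (hDC n hg)),
   fun hs => h.vee (fun n g hg => hs n g (hDC n hg)),
   fun hs => h.lin (fun n g hg => hs n g (hDC n hg))⟩

theorem Big.mem {C : Fam} (hC : IsBooleanClone C) (hB : Big C) {n : ℕ}
    (h : (Fin (n + 1) → Bool) → Bool)
    (f0 : Sub C QT0 → QT0 h) (f1 : Sub C QT1 → QT1 h) (fM : Sub C QM → QM h)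
    (fS : Sub C QS → QS h) : Mem C h :=
  big_mem hC (maj_of_big hC hB) hB.t02 hB.t12 h f0 f1 fM fS

theorem le_of_mem {C D : Fam} (hC : IsBooleanClone C)
    (h : ∀ (n : ℕ) (g : (Fin (n + 1) → Bool) → Bool), Mem C g → Mem D g) : C ≤ D := by
  intro n f hf
  obtain ⟨g, rfl⟩ := exists_tot (hC.2 n f hf)
  exact h n g hf

theorem embed_eq {C D : Fam} (hC : IsBooleanClone C) (hDC : D ≤ C)
    (h : ∀ (n : ℕ) (g : (Fin (n + 1) → Bool) → Bool), Mem C g → Mem D g) :
    Nonempty (IStr C ↪o IStr D) := by
  have : C = D := le_antisymm (le_of_mem hC h) hDC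
  subst this
  exact ⟨RelEmbedding.refl _⟩

theorem big_T0_notT1 {C D : Fam} (hC : IsBooleanClone C) (hD : IsBooleanClone D) (hDC : D ≤ C)
    (hB : Big D) (h0 : Sub C QT0) (h1 : ¬ Sub C QT1) : Nonempty (IStr C ↪o IStr D) := by
  have hBC := hB.mono hDC
  have hD0 : Sub D QT0 := fun n g hg => h0 n g (hDC n hg)
  have hCS : ¬ Sub C QS := by
    intro hS
    apply h1
    intro n g hg
    have := hS n g hg (fun _ => false)
    rw [h0 n g hg] at this
    exact this
  by_cases hM : Sub C QM
  · by_cases hD1 : Sub D QT1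
    · exact embed_MT0 hD hDC h0 hM hD1 (fun n h hh0 hhM =>
        hBC.mem hC h (fun _ => hh0) (fun h => absurd h h1) (fun _ => hhM) (fun h => absurd h hCS))
    · have hDS : ¬ Sub D QS := by
        intro hS
        apply hD1
        intro n g hg
        have := hS n g hg (fun _ => false)
        rw [hD0 n g hg] at this
        exact this
      exact embed_eq hC hDC (fun n g hg => hB.mem hD g (fun _ => h0 n g hg)
        (fun h => absurd h hD1) (fun _ => hM n g hg) (fun h => absurd h hDS))
  · exact embed_trivial hD (triv_T0 h0 (fun n h hh0 =>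
      hBC.mem hC h (fun _ => hh0) (fun h => absurd h h1) (fun h => absurd h hM)
        (fun h => absurd h hCS)))

theorem Big.dual {D : Fam} (hB : Big D) : Big (dualFam D) := by
  have key : ∀ {Q Q' : ∀ {n : ℕ}, ((Fin (n + 1) → Bool) → Bool) → Prop},
      (∀ (n : ℕ) (h : (Fin (n + 1) → Bool) → Bool), Q h → Q' (dualh h)) →
      Sub (dualFam D) Q → Sub D Q' := by
    intro Q Q' hQ hs
    have := Sub_dual hQ hs
    rwa [dualFam_dualFam] at this
  exact ⟨fun hs => hB.t12 (key (Q := @QT02) (Q' := @QT12) (fun _ _ h => QT02_dual h) hs),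
    fun hs => hB.t02 (key (Q := @QT12) (Q' := @QT02) (fun _ _ h => QT12_dual h) hs),
    fun hs => hB.vee (key (Q := @QLam) (Q' := @QVee) (fun _ _ h => QLam_dual h) hs),
    fun hs => hB.lam (key (Q := @QVee) (Q' := @QLam) (fun _ _ h => QVee_dual h) hs),
    fun hs => hB.lin (key (Q := @QLin) (Q' := @QLin) (fun _ _ h => QLin_dual h) hs)⟩

theorem embed_big {C D : Fam} (hC : IsBooleanClone C) (hD : IsBooleanClone D) (hDC : D ≤ C)
    (hB : Big D) : Nonempty (IStr C ↪o IStr D) := by
  have hBC := hB.mono hDC
  by_cases h0 : Sub C QT0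
  · by_cases h1 : Sub C QT1
    · have hD0 : Sub D QT0 := fun n g hg => h0 n g (hDC n hg)
      have hD1 : Sub D QT1 := fun n g hg => h1 n g (hDC n hg)
      by_cases hM : Sub C QM
      · have hDM : Sub D QM := fun n g hg => hM n g (hDC n hg)
        have hDS : ¬ Sub D QS := fun hS => hB.t02 (T02_of_S_M hS hDM)
        exact embed_eq hC hDC (fun n g hg => hB.mem hD g (fun _ => h0 n g hg)
          (fun _ => h1 n g hg) (fun _ => hM n g hg) (fun h => absurd h hDS))
      by_cases hS : Sub C QS
      · have hDS : Sub D QS := fun n g hg => hS n g (hDC n hg)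
        have hDM : ¬ Sub D QM := fun hM => hB.t02 (T02_of_S_M hDS hM)
        exact embed_eq hC hDC (fun n g hg => hB.mem hD g (fun _ => h0 n g hg)
          (fun _ => h1 n g hg) (fun h => absurd h hDM) (fun _ => hS n g hg))
      · exact embed_T01 hD hDC h0 h1 (fun n h hh0 hh1 =>
          hBC.mem hC h (fun _ => hh0) (fun _ => hh1) (fun h => absurd h hM)
            (fun h => absurd h hS))
    · exact big_T0_notT1 hC hD hDC hB h0 h1
  · by_cases h1 : Sub C QT1
    · -- dual
      obtain ⟨e⟩ := big_T0_notT1 (dual_boolean hC) (dual_boolean hD) (dualFam_le.2 hDC) hB.dual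
        (Sub_dual (Q := @QT1) (Q' := @QT0) (fun _ _ h => QT1_dual h) h1)
        (fun h => h0 (by
          have := Sub_dual (Q := @QT1) (Q' := @QT0) (fun _ _ h => QT1_dual h) h
          rwa [dualFam_dualFam] at this))
      exact ⟨((dualEmb C).trans e).trans (dualEmb' D)⟩
    · by_cases hM : Sub C QM
      · have hS : ¬ Sub C QS := fun hS => hBC.t02 (T02_of_S_M hS hM)
        exact embed_trivial hD (triv_M hM (fun n h hhM =>
          hBC.mem hC h (fun h => absurd h h0) (fun h => absurd h h1) (fun _ => hhM)
            (fun h => absurd h hS)))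
      by_cases hS : Sub C QS
      · exact embed_trivial hD (triv_S hS (fun n h hhS =>
          hBC.mem hC h (fun h => absurd h h0) (fun h => absurd h h1) (fun h => absurd h hM)
            (fun _ => hhS)))
      · exact embed_trivial hD (triv_all (fun n h =>
          hBC.mem hC h (fun h => absurd h h0) (fun h => absurd h h1) (fun h => absurd h hM)
            (fun h => absurd h hS)))

theorem embed_small {C D : Fam} (h : Nonempty (Set ℕ ↪o IStr D)) :
    Nonempty (IStr C ↪o IStr D) := by
  obtain ⟨e⟩ := h
  obtain ⟨e'⟩ := embed_nat C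
  exact ⟨e'.trans e⟩

theorem embed_small_dual {C D : Fam} (h : Nonempty (Set ℕ ↪o IStr (dualFam D))) :
    Nonempty (IStr C ↪o IStr D) := by
  obtain ⟨e⟩ := h
  exact embed_small ⟨e.trans (dualEmb' D)⟩

theorem main {C D : Fam} (hC : IsBooleanClone C) (hD : IsBooleanClone D) (hDC : D ≤ C) :
    Nonempty (IStr C ↪o IStr D) := by
  by_cases hlin : Sub D QLin
  · by_cases h0 : Sub D QT0
    · exact embed_small (small_LinT0 hD hlin h0)
    by_cases h1 : Sub D QT1
    · exact embed_small_dual (small_LinT0 (dual_boolean hD)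
        (Sub_dual (Q := @QLin) (Q' := @QLin) (fun _ _ h => QLin_dual h) hlin)
        (Sub_dual (Q := @QT1) (Q' := @QT0) (fun _ _ h => QT1_dual h) h1))
    by_cases hS : Sub D QS
    · exact embed_small (small_LinS hD hlin hS)
    by_cases hU : Sub D QU
    · exact embed_small (small_U hD hU)
    have hall := lin_all hD hlin h0 h1 hS hU
    by_cases hCl : Sub C QLin
    · exact embed_eq hC hDC (fun n g hg => hall n g (hCl n g hg))
    · -- `C` is everything
      by_cases h02 : Sub D QT02
      · exact embed_small (small_T02 hD h02)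
      by_cases h12 : Sub D QT12
      · exact embed_small_dual (small_T02 (dual_boolean hD)
          (Sub_dual (Q := @QT12) (Q' := @QT02) (fun _ _ h => QT12_dual h) h12))
      by_cases hlam : Sub D QLam
      · exact embed_small (small_Lam hD hlam)
      by_cases hvee : Sub D QVee
      · exact embed_small_dual (small_Lam (dual_boolean hD)
          (Sub_dual (Q := @QVee) (Q' := @QLam) (fun _ _ h => QVee_dual h) hvee))
      have hBC : Big C := ⟨fun hs => h02 (fun n g hg => hs n g (hDC n hg)),
        fun hs => h12 (fun n g hg => hs n g (hDC n hg)),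
        fun hs => hlam (fun n g hg => hs n g (hDC n hg)),
        fun hs => hvee (fun n g hg => hs n g (hDC n hg)), hCl⟩
      have hneg : Mem D (fun x : Fin 1 → Bool => !(x 0)) := by
        refine hall 0 _ (fun a b => ?_)
        show (!(xor (a 0) (b 0))) = xor (xor (!(a 0)) (!(b 0))) (!false)
        cases a 0 <;> cases b 0 <;> rfl
      have hM : ¬ Sub C QM := by
        intro hM
        have := hM 0 _ (hDC 0 hneg) (fun _ => false) (fun _ => true) (by simp) rfl
        cases this
      exact embed_trivial hD (triv_all (fun n h =>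
          hBC.mem hC h (fun hs => absurd (fun n g hg => hs n g (hDC n hg)) h0)
            (fun hs => absurd (fun n g hg => hs n g (hDC n hg)) h1) (fun h => absurd h hM)
            (fun hs => absurd (fun n g hg => hs n g (hDC n hg)) hS)))
  by_cases h02 : Sub D QT02
  · exact embed_small (small_T02 hD h02)
  by_cases h12 : Sub D QT12
  · exact embed_small_dual (small_T02 (dual_boolean hD)
      (Sub_dual (Q := @QT12) (Q' := @QT02) (fun _ _ h => QT12_dual h) h12))
  by_cases hlam : Sub D QLam
  · exact embed_small (small_Lam hD hlam)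
  by_cases hvee : Sub D QVee
  · exact embed_small_dual (small_Lam (dual_boolean hD)
      (Sub_dual (Q := @QVee) (Q' := @QLam) (fun _ _ h => QVee_dual h) hvee))
  exact embed_big hC hD hDC ⟨h02, h12, hlam, hvee, hlin⟩

end Pool.Agent.Lib.MP_2f3cff_al
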