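import Pool.Agent.Lib.MP_2f3cff_al.Dual

set_option autoImplicit false

namespace Pool.Agent.Lib.MP_2f3cff_al

def maj (x y z : Bool) : Bool := (x && y) || ((y && z) || (x && z))

/-- binary members of a clone without `∧`, `∨` are affine -/
theorem bin_affine {C : Fam} (hC : IsBooleanClone C) (hand : ¬ M2 C (fun x y => x && y))
    (hor : ¬ M2 C (fun x y => x || y)) {b : Bool → Bool → Bool} (hb : M2 C b) :
    b true true = xor (xor (b true false) (b false true)) (b false false) := by
  by_contra hne
  rcases h00 : b false false with _ | _ <;> rcases h01 : b false true with _ | _ <;>
    rcases h10 : b true false with _ | _ <;> rcases h11 : b true true with _ | _ <;>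
    simp only [h00, h01, h10, h11, Bool.xor_false, Bool.xor_true, Bool.not_true,
      Bool.not_false, not_true_eq_false, Bool.false_xor, Bool.true_xor] at hne
  · exact hand (M2.congr hb (fun x y => by cases x <;> cases y <;> simp [*]))
  · exact hand (M2.congr (M2.comp2 hC hb (M2.fst hC) hb)
      (fun x y => by cases x <;> cases y <;> simp [*]))
  · exact hand (M2.congr (M2.comp2 hC hb hb (M2.snd hC))
      (fun x y => by cases x <;> cases y <;> simp [*]))
  · exact hor (M2.congr hb (fun x y => by cases x <;> cases y <;> simp [*]))
  · have hn := M2.diag hC hb
    exact hand (M2.congr (M2.comp2 hC hb (M1.comp2 hC hn (M2.fst hC))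
      (M1.comp2 hC hn (M2.snd hC)))
      (fun x y => by cases x <;> cases y <;> simp [*]))
  · exact hor (M2.congr (M2.comp2 hC hb (M2.fst hC) hb)
      (fun x y => by cases x <;> cases y <;> simp [*]))
  · exact hor (M2.congr (M2.comp2 hC hb hb (M2.snd hC))
      (fun x y => by cases x <;> cases y <;> simp [*]))
  · have hn := M2.diag hC hb
    exact hor (M2.congr (M2.comp2 hC hb (M1.comp2 hC hn (M2.fst hC))
      (M1.comp2 hC hn (M2.snd hC)))
      (fun x y => by cases x <;> cases y <;> simp [*]))

/-- with the constant `0` and only affine binary members everything is affine -/
theorem lin_of_zero {C : Fam} (hC : IsBooleanClone C)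
    (hbin : ∀ b : Bool → Bool → Bool, M2 C b →
      b true true = xor (xor (b true false) (b false true)) (b false false))
    (h0 : M1 C (fun _ => false)) : Sub C QLin := by
  intro n h hh a b
  have hg := Mem.mk3 hC hh (fun i x y z => if (a i && b i) = true then z
      else if a i = true then x else if b i = true then y else false) (fun i => by
        by_cases h0' : (a i && b i) = true
        · simpa [h0'] using M3.p2 hC
        · by_cases h1 : a i = true
          · have : b i = false := by simpa [h1] using h0'
            simpa [h1, this] using M3.p0 hC
          · by_cases h2 : b i = true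
            · simpa [h1, h2] using M3.p1 hC
            · simpa [h1, h2] using M3.const hC h0)
  have f101 : (fun i => if (a i && b i) = true then true
      else if a i = true then true else if b i = true then false else false) = a := by
    funext i
    cases a i <;> cases b i <;> simp
  have f011 : (fun i => if (a i && b i) = true then true
      else if a i = true then false else if b i = true then true else false) = b := by
    funext i
    cases a i <;> cases b i <;> simp
  have f110 : (fun i => if (a i && b i) = true then false
      else if a i = true then true else if b i = true then true else false) =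
        (fun i => xor (a i) (b i)) := by
    funext i
    cases a i <;> cases b i <;> simp
  have f000 : (fun i => if (a i && b i) = true then false
      else if a i = true then false else if b i = true then false else false) =
        (fun _ => false) := by
    funext i
    cases a i <;> cases b i <;> simp
  set g : Bool → Bool → Bool → Bool := fun x y z => h (fun i => if (a i && b i) = true then z
      else if a i = true then x else if b i = true then y else false) with hgdef
  have e101 : g true false true = h a := by rw [hgdef]; simp only; rw [f101]
  have e011 : g false true true = h b := by rw [hgdef]; simp only; rw [f011]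
  have e110 : g true true false = h (fun i => xor (a i) (b i)) := by
    rw [hgdef]; simp only; rw [f110]
  have e000 : g false false false = h (fun _ => false) := by rw [hgdef]; simp only; rw [f000]
  clear_value g
  clear hgdef
  have i1 := hbin (fun x y => g x y false)
    (M3.app hC hg (Mem.proj hC 0) (Mem.proj hC 1) (Mem.const hC h0 1))
  have i2 := hbin (fun x y => g x false y)
    (M3.app hC hg (Mem.proj hC 0) (Mem.const hC h0 1) (Mem.proj hC 1))
  have i3 := hbin (fun x y => g false x y)
    (M3.app hC hg (Mem.const hC h0 1) (Mem.proj hC 0) (Mem.proj hC 1))
  rw [← e101, ← e011, ← e110, ← e000, i1, i2, i3]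
  generalize g true false false = p
  generalize g false true false = q
  generalize g false false true = r
  generalize g false false false = s
  cases p <;> cases q <;> cases r <;> cases s <;> rfl

theorem lin_of_one {C : Fam} (hC : IsBooleanClone C)
    (hbin : ∀ b : Bool → Bool → Bool, M2 C b →
      b true true = xor (xor (b true false) (b false true)) (b false false))
    (h1 : M1 C (fun _ => true)) : Sub C QLin := by
  have h2 : Sub (dualFam C) QLin := by
    refine lin_of_zero (dual_boolean hC) (fun b hb => ?_) ?_
    · have := hbin _ (M2_dual' hb)
      simp only [Bool.not_true, Bool.not_false] at this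
      revert this
      generalize b true true = p
      generalize b false true = q
      generalize b true false = r
      generalize b false false = s
      cases p <;> cases q <;> cases r <;> cases s <;> simp
    · exact M1.congr (M1_dual h1) (fun x => rfl)
  have := Sub_dual (Q := @QLin) (Q' := @QLin) (fun n h hh => QLin_dual hh) h2
  rwa [dualFam_dualFam] at this

/-- big clones -/
structure Big (C : Fam) : Prop where
  t02 : ¬ Sub C QT02
  t12 : ¬ Sub C QT12
  lam : ¬ Sub C QLam
  vee : ¬ Sub C QVee
  lin : ¬ Sub C QLin

theorem maj_of_and_or {C : Fam} (hC : IsBooleanClone C) (hand : M2 C (fun x y => x && y))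
    (hor : M2 C (fun x y => x || y)) : M3 C maj :=
  M2.comp3 hC hor (M2.comp3 hC hand (M3.p0 hC) (M3.p1 hC))
    (M2.comp3 hC hor (M2.comp3 hC hand (M3.p1 hC) (M3.p2 hC))
      (M2.comp3 hC hand (M3.p0 hC) (M3.p2 hC)))

/-- ternary self-dual members with even sum generate majority -/
theorem maj_of_even {C : Fam} (hC : IsBooleanClone C)
    {t : Bool → Bool → Bool → Bool} (ht : M3 C t)
    (hsd : ∀ x y z, t (!x) (!y) (!z) = !(t x y z))
    (hev : xor (xor (t true false false) (t false true false))
      (xor (t false false true) (t false false false)) = false) : M3 C maj := by
  -- first the case `t 0 0 0 = 0`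
  have key : ∀ {t : Bool → Bool → Bool → Bool}, M3 C t →
      (∀ x y z, t (!x) (!y) (!z) = !(t x y z)) →
      (xor (xor (t true false false) (t false true false))
      (xor (t false false true) (t false false false)) = false) →
      t false false false = false → M3 C maj := by
    intro t ht hsd hev h0
    have s1 := hsd false false false
    have s2 := hsd true false false
    have s3 := hsd false true false
    have s4 := hsd false false true
    simp only [Bool.not_true, Bool.not_false, h0] at s1 s2 s3 s4
    rcases h1 : t true false false with _ | _ <;> rcases h2 : t false true false with _ | _ <;>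
      rcases h3 : t false false true with _ | _ <;>
      simp only [h0, h1, h2, h3, Bool.xor_false, Bool.xor_true, Bool.not_true,
        Bool.not_false, Bool.false_eq_true, Bool.true_eq_false, reduceCtorEq] at hev s2 s3 s4
    · refine M3.congr ht (fun x y z => ?_)
      cases x <;> cases y <;> cases z <;> simp [maj, *]
    · refine M3.congr (M3.comp3 hC ht ht (M3.p1 hC) (M3.p2 hC)) (fun x y z => ?_)
      cases x <;> cases y <;> cases z <;> simp [maj, *]
    · refine M3.congr (M3.comp3 hC ht (M3.p0 hC) ht (M3.p2 hC)) (fun x y z => ?_)
      cases x <;> cases y <;> cases z <;> simp [maj, *]
    · refine M3.congr (M3.comp3 hC ht (M3.p0 hC) (M3.p1 hC) ht) (fun x y z => ?_)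
      cases x <;> cases y <;> cases z <;> simp [maj, *]
  by_cases h0 : t false false false = false
  · exact key ht hsd hev h0
  · have h0' : t false false false = true := by simpa using h0
    have s1 := hsd false false false
    simp only [Bool.not_false, h0', Bool.not_true] at s1
    have hn := M3.diag hC ht
    have hn' : M1 C not := M1.congr hn (fun x => by cases x <;> simp [*])
    refine key (M1.comp3 hC hn' ht) (fun x y z => by rw [hsd]) ?_ (by simp [h0'])
    revert hev
    generalize t true false false = p
    generalize t false true false = q
    generalize t false false true = r
    generalize t false false false = s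
    cases p <;> cases q <;> cases r <;> cases s <;> simp

theorem maj_of_big {C : Fam} (hC : IsBooleanClone C) (hB : Big C) : M3 C maj := by
  by_cases hand : M2 C (fun x y => x && y)
  · exact maj_of_and_or hC hand (or_of_and hC hand hB.t02 hB.lam)
  by_cases hor : M2 C (fun x y => x || y)
  · exact absurd (and_of_or hC hor hB.t12 hB.vee) hand
  have hbin : ∀ b : Bool → Bool → Bool, M2 C b →
      b true true = xor (xor (b true false) (b false true)) (b false false) :=
    fun b hb => bin_affine hC hand hor hb
  have n0 : ¬ M1 C (fun _ => false) := fun h => hB.lin (lin_of_zero hC hbin h)
  have n1 : ¬ M1 C (fun _ => true) := fun h => hB.lin (lin_of_one hC hbin h)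
  -- binary members are self-dual
  have hbs : ∀ b : Bool → Bool → Bool, M2 C b → b true false = !(b false true) := by
    intro b hb
    have h1 := hbin b hb
    have h2 : b true true ≠ b false false := by
      intro heq
      cases h : b false false
      · refine n0 (M1.congr (M2.diag hC hb) (fun x => ?_))
        cases x
        · exact h.symm
        · rw [heq, h]
      · refine n1 (M1.congr (M2.diag hC hb) (fun x => ?_))
        cases x
        · exact h.symm
        · rw [heq, h]
    revert h1 h2
    generalize b true true = p
    generalize b false true = q
    generalize b true false = r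
    generalize b false false = s
    cases p <;> cases q <;> cases r <;> cases s <;> simp
  -- `C` is contained in `S`
  have hS : Sub C QS := by
    intro n h hh a
    have hf := hbs _ (Mem.mk2 hC hh (fun i x y => if a i = true then y else x) (fun i => by
      by_cases h1 : a i = true
      · simpa [h1] using M2.snd hC
      · simpa [h1] using M2.fst hC))
    have e1 : (fun i => if a i = true then false else true) = (fun i => !(a i)) := by
      funext i; cases a i <;> rfl
    have e2 : (fun i => if a i = true then true else false) = a := by
      funext i; cases a i <;> rfl
    rw [e1, e2] at hf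
    exact hf
  by_contra hmaj
  apply hB.lin
  intro n h hh a b
  have hadd : ∀ a b : Fin (n + 1) → Bool, (∀ i, a i = true → b i = true → False) →
      h (fun i => a i || b i) = xor (xor (h a) (h b)) (h (fun _ => false)) := by
    intro a b hab
    have ht := Mem.mk3 hC hh (fun i x y z => if a i = true then x else if b i = true then y
      else z) (fun i => by
        by_cases h1 : a i = true
        · simpa [h1] using M3.p0 hC
        · by_cases h2 : b i = true
          · simpa [h1, h2] using M3.p1 hC
          · simpa [h1, h2] using M3.p2 hC)
    have hsd : ∀ x y z : Bool, h (fun i => if a i = true then !x else if b i = true then !y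
        else !z) = !(h (fun i => if a i = true then x else if b i = true then y
      else z)) := by
      intro x y z
      rw [← hS n h hh]
      congr 1
      funext i
      split_ifs <;> rfl
    have hev : xor (xor (h (fun i => if a i = true then true else if b i = true then false
      else false)) (h (fun i => if a i = true then false else if b i = true then true
      else false))) (xor (h (fun i => if a i = true then false else if b i = true then false
      else true)) (h (fun i => if a i = true then false else if b i = true then false
      else false))) = true := by
      by_contra hev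
      exact hmaj (maj_of_even hC ht hsd (by simpa using hev))
    have f1 : (fun i => if a i = true then true else if b i = true then false
      else false) = a := by funext i; cases a i <;> simp
    have f2 : (fun i => if a i = true then false else if b i = true then true
      else false) = b := by
      funext i
      cases h : a i
      · cases b i <;> rfl
      · cases h' : b i
        · rfl
        · exact (hab i h h').elim
    have f3 : (fun i => if a i = true then false else if b i = true then false
      else true) = (fun i => !(a i || b i)) := by
      funext i
      cases a i <;> cases b i <;> rfl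
    have f4 : (fun i => if a i = true then false else if b i = true then false
      else false) = (fun _ : Fin (n + 1) => false) := by
      funext i
      cases a i <;> cases b i <;> rfl
    rw [f1, f2, f3, f4, hS n h hh (fun i => a i || b i)] at hev
    revert hev
    generalize h a = p
    generalize h b = q
    generalize h (fun i => a i || b i) = r
    generalize h (fun _ => false) = s
    cases p <;> cases q <;> cases r <;> cases s <;> simp
  have h1 := hadd (fun i => a i && !(b i)) (fun i => b i && !(a i)) (fun i => by
    cases a i <;> cases b i <;> simp)
  have h2 := hadd (fun i => a i && !(b i)) (fun i => a i && b i) (fun i => by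
    cases a i <;> cases b i <;> simp)
  have h3 := hadd (fun i => b i && !(a i)) (fun i => a i && b i) (fun i => by
    cases a i <;> cases b i <;> simp)
  have e1 : (fun i => (a i && !(b i)) || (b i && !(a i))) = (fun i => xor (a i) (b i)) := by
    funext i; cases a i <;> cases b i <;> rfl
  have e2 : (fun i => (a i && !(b i)) || (a i && (b i))) = a := by
    funext i; cases a i <;> cases b i <;> rfl
  have e3 : (fun i => (b i && !(a i)) || (a i && (b i))) = b := by
    funext i; cases a i <;> cases b i <;> rfl
  rw [e1] at h1
  rw [e2] at h2
  rw [e3] at h3
  rw [h1, h2, h3]
  generalize h (fun i => a i && !(b i)) = p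
  generalize h (fun i => b i && !(a i)) = q
  generalize h (fun i => a i && b i) = r
  generalize h (fun _ => false) = s
  cases p <;> cases q <;> cases r <;> cases s <;> rfl

/-- Baker–Pixley interpolation -/
theorem interp {C : Fam} (hC : IsBooleanClone C) (hmaj : M3 C maj) {n : ℕ}
    (h : (Fin (n + 1) → Bool) → Bool)
    (h2 : ∀ a b, ∃ g : (Fin (n + 1) → Bool) → Bool, Mem C g ∧ g a = h a ∧ g b = h b) :
    Mem C h := by
  classical
  have key : ∀ (k : ℕ) (F : Finset (Fin (n + 1) → Bool)), F.card ≤ k →
      ∃ g : (Fin (n + 1) → Bool) → Bool, Mem C g ∧ ∀ x ∈ F, g x = h x := by
    intro k
    induction k with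
    | zero =>
      intro F hF
      refine ⟨_, Mem.proj hC 0, fun x hx => ?_⟩
      have : F = ∅ := Finset.card_eq_zero.1 (by omega)
      rw [this] at hx
      simp at hx
    | succ k ih =>
      intro F hF
      by_cases hc : F.card ≤ 2
      · -- at most two points
        rcases Nat.lt_or_ge F.card 1 with h0 | h0
        · refine ⟨_, Mem.proj hC 0, fun x hx => ?_⟩
          have : F = ∅ := Finset.card_eq_zero.1 (by omega)
          rw [this] at hx
          simp at hx
        · rcases Nat.lt_or_ge F.card 2 with h1 | h1
          · obtain ⟨a, rfl⟩ := Finset.card_eq_one.1 (by omega : F.card = 1)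
            obtain ⟨g, hg, hga, -⟩ := h2 a a
            refine ⟨g, hg, fun x hx => ?_⟩
            rw [Finset.mem_singleton.1 hx]
            exact hga
          · obtain ⟨a, b, -, rfl⟩ := Finset.card_eq_two.1 (by omega : F.card = 2)
            obtain ⟨g, hg, hga, hgb⟩ := h2 a b
            refine ⟨g, hg, fun x hx => ?_⟩
            rcases Finset.mem_insert.1 hx with rfl | hx
            · exact hga
            · rw [Finset.mem_singleton.1 hx]
              exact hgb
      · obtain ⟨p, q, r, hp, hq, hr, hpq, hpr, hqr⟩ := (Finset.two_lt_card_iff).1 (by omega : 2 < F.card)
        obtain ⟨g1, hg1, e1⟩ := ih (F.erase p) (by rw [Finset.card_erase_of_mem hp]; omega)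
        obtain ⟨g2, hg2, e2⟩ := ih (F.erase q) (by rw [Finset.card_erase_of_mem hq]; omega)
        obtain ⟨g3, hg3, e3⟩ := ih (F.erase r) (by rw [Finset.card_erase_of_mem hr]; omega)
        refine ⟨_, M3.app hC hmaj hg1 hg2 hg3, fun x hx => ?_⟩
        by_cases xp : x = p
        · have a2 := e2 x (Finset.mem_erase.2 ⟨by rw [xp]; exact hpq, hx⟩)
          have a3 := e3 x (Finset.mem_erase.2 ⟨by rw [xp]; exact hpr, hx⟩)
          rw [a2, a3]
          cases g1 x <;> cases h x <;> rfl
        · have a1 := e1 x (Finset.mem_erase.2 ⟨xp, hx⟩)
          by_cases xq : x = q
          · have a3 := e3 x (Finset.mem_erase.2 ⟨by rw [xq]; exact hqr, hx⟩)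
            rw [a1, a3]
            cases g2 x <;> cases h x <;> rfl
          · have a2 := e2 x (Finset.mem_erase.2 ⟨xq, hx⟩)
            rw [a1, a2]
            cases g3 x <;> cases h x <;> rfl
  obtain ⟨g, hg, e⟩ := key _ Finset.univ le_rfl
  have : h = g := by
    funext x
    exact (e x (Finset.mem_univ x)).symm
  rw [this]
  exact hg

end Pool.Agent.Lib.MP_2f3cff_al
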