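import Pool.Agent.Lib.MP_2f3cff_al.Clones
import Pool.Agent.Lib.MP_2f3cff_al.Graph

set_option autoImplicit false

namespace Pool.Agent.Lib.MP_2f3cff_al

theorem Pres_tot {k : ℕ} {W : Type} {h : (Fin k → Bool) → Bool} {σ : Set (W → Bool)}
    (H : ∀ X : Fin k → W → Bool, (∀ i, X i ∈ σ) → (fun w => h (fun i => X i w)) ∈ σ) :
    Pres (tot h) σ := by
  intro X hX z hz
  have : z = fun w => h (fun i => X i w) := by
    funext w
    have := hz w
    simp only [tot, Option.some.injEq] at this
    exact this.symm
  rw [this]
  exact H X hX

open Classical in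
noncomputable def pairInd {n : ℕ} (p q : Vg n) : Vg n → Bool := fun v => decide (v = p ∨ v = q)

theorem pairInd_mem {n : ℕ} {p q : Vg n} (h : ¬ adj p q) : pairInd p q ∈ IndS n := by
  intro u v huv hu hv
  simp only [pairInd, decide_eq_true_eq] at hu hv
  rcases hu with rfl | rfl <;> rcases hv with rfl | rfl
  · exact adj_irrefl _ huv
  · exact h huv
  · exact h (adj_symm huv)
  · exact adj_irrefl _ huv

theorem pairInd_true {n : ℕ} {p q v : Vg n} : pairInd p q v = true ↔ v = p ∨ v = q := by
  simp [pairInd]

theorem zero_mem_IndS (n : ℕ) : (fun _ => false) ∈ IndS n := by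
  intro u v _ hu
  simp at hu

theorem tG_notMem (n : ℕ) : tG n ∉ IndS n := by
  intro h
  exact h (Sum.inl 0) (Sum.inl 1) (by simp [adj]) (by simp [tG]) (by simp [tG])

theorem hom_or {m n : ℕ} (φ : Vg m → Vg n) : (∀ u v, adj u v → adj (φ u) (φ v)) ∨
    ∃ u v, adj u v ∧ ¬ adj (φ u) (φ v) := by
  by_cases h : ∀ u v, adj u v → adj (φ u) (φ v)
  · exact Or.inl h
  · right
    push Not at h
    exact h

theorem sep_IndS {n : ℕ} {u v : Vg n} (h : u ≠ v) : ∃ x ∈ IndS n, x u ≠ x v := by
  refine ⟨pairInd u u, pairInd_mem (adj_irrefl u), ?_⟩
  have h1 : pairInd u u u = true := pairInd_true.2 (Or.inl rfl)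
  have h2 : pairInd u u v ≠ true := fun h' => by
    rcases pairInd_true.1 h' with h' | h' <;> exact h h'.symm
  rw [h1]
  exact fun h' => h2 h'.symm

theorem small_T02 {D : Fam} (hD : IsBooleanClone D) (h : Sub D QT02) :
    Nonempty (Set ℕ ↪o IStr D) := by
  classical
  refine embed_of_family hD (fun n => Vg n) (fun n => IndS n) (fun n => tG n) ?_ ?_ ?_ ?_ ?_ ?_
  · exact fun n => ⟨_, zero_mem_IndS n⟩
  · exact fun n u v huv => sep_IndS huv
  · exact tG_notMem
  · intro m n hmn φ hφ
    rcases hom_or φ with hh | ⟨u, v, huv, hn⟩
    · exact hom_edge hmn hh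
    · exfalso
      exact hφ _ (pairInd_mem hn) u v huv (pairInd_true.2 (Or.inl rfl))
        (pairInd_true.2 (Or.inr rfl))
  · intro n k g hg
    refine Pres_tot (fun X hX u v huv hu hv => ?_)
    obtain ⟨i, hi, hi'⟩ := h k g hg _ _ hu hv
    exact hX i u v huv hi hi'
  · intro n k ψ hψ
    exfalso
    obtain ⟨i, hi, -⟩ := h k _ (hψ _ (pairInd_mem (adj_irrefl (ψ (fun _ => false)))))
      (fun _ => false) (fun _ => false) (pairInd_true.2 (Or.inl rfl))
      (pairInd_true.2 (Or.inl rfl))
    simp at hi

theorem small_Lam {D : Fam} (hD : IsBooleanClone D) (h : Sub D QLam) :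
    Nonempty (Set ℕ ↪o IStr D) := by
  classical
  refine embed_of_family hD (fun n => Vg n) (fun n => {x | x ∈ IndS n ∨ x = fun _ => true})
    (fun n => tG n) ?_ ?_ ?_ ?_ ?_ ?_
  · exact fun n => ⟨_, Or.inl (zero_mem_IndS n)⟩
  · intro n u v huv
    obtain ⟨x, hx, hx'⟩ := sep_IndS huv
    exact ⟨x, Or.inl hx, hx'⟩
  · rintro n (h | h)
    · exact tG_notMem n h
    · have := congrFun h (Sum.inr 0)
      simp [tG] at this
  · intro m n hmn φ hφ
    rcases hom_or φ with hh | ⟨u, v, huv, hn⟩
    · exact Or.inl (hom_edge hmn hh)
    · -- all values are `φ u` or `φ v`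
      have h1 : ∀ w, φ w = φ u ∨ φ w = φ v := by
        rcases hφ _ (Or.inl (pairInd_mem hn)) with h1 | h1
        · exact (h1 u v huv (pairInd_true.2 (Or.inl rfl)) (pairInd_true.2 (Or.inr rfl))).elim
        · intro w
          exact pairInd_true.1 (congrFun h1 w)
      -- one of them is everything
      have key : ∀ p : Vg n, (∀ w, φ w = p) ∨ pairInd p p ∘ φ ∈ IndS m := by
        intro p
        rcases hφ _ (Or.inl (pairInd_mem (adj_irrefl p))) with h2 | h2
        · exact Or.inr h2
        · left
          intro w
          rcases pairInd_true.1 (congrFun h2 w) with h3 | h3 <;> exact h3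
      have hconst : ∃ p, ∀ w, φ w = p := by
        rcases key (φ u) with h2 | h2
        · exact ⟨_, h2⟩
        rcases key (φ v) with h3 | h3
        · exact ⟨_, h3⟩
        exfalso
        refine three_colour _ _ _ h2 h3 h3 (fun w => ?_)
        rcases h1 w with h4 | h4
        · left
          exact pairInd_true.2 (Or.inl h4)
        · right; left
          exact pairInd_true.2 (Or.inl h4)
      obtain ⟨p, hp⟩ := hconst
      rcases hb : tG n p with _ | _
      · left
        have : tG n ∘ φ = fun _ => false := by
          funext w
          simp [hp w, hb]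
        rw [this]
        exact zero_mem_IndS m
      · right
        funext w
        simp [hp w, hb]
  · intro n k g hg
    refine Pres_tot (fun X hX => ?_)
    by_contra hne
    simp only [Set.mem_setOf_eq, not_or] at hne
    obtain ⟨hne1, hne2⟩ := hne
    apply hne2
    simp only [IndS, Set.mem_setOf_eq] at hne1
    push Not at hne1
    obtain ⟨u, v, huv, hu, hv, -⟩ := hne1
    have hQ := h k g hg
    have h1 := hQ (fun i => X i u) (fun i => X i v)
    rw [hu, hv] at h1
    -- the meet is below every column
    funext w
    have h2 := hQ (fun i => X i u && X i v) (fun i => X i w)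
    have h3 : (fun i => (X i u && X i v) && X i w) = (fun i => X i u && X i v) := by
      funext i
      rcases hX i with h4 | h4
      · have : (X i u && X i v) = false := by
          by_contra h5
          simp only [Bool.not_eq_false, Bool.and_eq_true] at h5
          exact h4 u v huv h5.1 h5.2
        rw [this]
        rfl
      · rw [h4]
        rfl
    rw [h3, h1] at h2
    simpa using h2.symm
  · intro n k ψ hψ
    -- `ψ` is constant
    have hQ : ∀ x ∈ IndS n, QLam (n := k) (x ∘ ψ) := fun x hx => h k _ (hψ x (Or.inl hx))
    have h1 : ∀ a b : Fin (k + 1) → Bool, ψ a = ψ (fun i => a i && b i) := by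
      intro a b
      have := hQ _ (pairInd_mem (adj_irrefl (ψ (fun i => a i && b i)))) a b
      have h2 : (pairInd (ψ (fun i => a i && b i)) (ψ (fun i => a i && b i)) ∘ ψ)
          (fun i => a i && b i) = true := pairInd_true.2 (Or.inl rfl)
      rw [h2] at this
      have h3 := (Bool.and_eq_true _ _).mp this.symm
      rcases pairInd_true.1 h3.1 with h4 | h4 <;> exact h4
    have h2 : ∀ a, ψ a = ψ (fun _ => false) := by
      intro a
      rw [h1 a (fun _ => false)]
      congr 1
      funext i
      simp
    rcases hb : tG n (ψ (fun _ => false)) with _ | _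
    · have := hψ (fun _ => false) (Or.inl (zero_mem_IndS n))
      have e : tG n ∘ ψ = (fun _ => false) ∘ ψ := by
        funext a
        simp [h2 a, hb]
      rw [e]
      exact this
    · have := hψ (fun _ => true) (Or.inr rfl)
      have e : tG n ∘ ψ = (fun _ => true) ∘ ψ := by
        funext a
        simp [h2 a, hb]
      rw [e]
      exact this

theorem small_U {D : Fam} (hD : IsBooleanClone D) (h : Sub D QU) :
    Nonempty (Set ℕ ↪o IStr D) := by
  classical
  refine embed_of_family hD (fun n => Vg n)
    (fun n => {x | x ∈ IndS n ∨ (fun v => !(x v)) ∈ IndS n})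
    (fun n => tG n) ?_ ?_ ?_ ?_ ?_ ?_
  · exact fun n => ⟨_, Or.inl (zero_mem_IndS n)⟩
  · intro n u v huv
    obtain ⟨x, hx, hx'⟩ := sep_IndS huv
    exact ⟨x, Or.inl hx, hx'⟩
  · rintro n (h | h)
    · exact tG_notMem n h
    · exact h (Sum.inr 0) (Sum.inr 1) (by simp [adj, Fin.ext_iff]) (by simp [tG]) (by simp [tG])
  · intro m n hmn φ hφ
    rcases hom_or φ with hh | ⟨u, v, huv, hn⟩
    · exact Or.inl (hom_edge hmn hh)
    · -- the complement of the fibre of the pair is independent
      have h1 : (fun w => !((pairInd (φ u) (φ v) ∘ φ) w)) ∈ IndS m := by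
        rcases hφ _ (Or.inl (pairInd_mem hn)) with h1 | h1
        · exact (h1 u v huv (pairInd_true.2 (Or.inl rfl)) (pairInd_true.2 (Or.inr rfl))).elim
        · exact h1
      have key : ∀ p : Vg n, (fun w => !((pairInd p p ∘ φ) w)) ∈ IndS m ∨
          pairInd p p ∘ φ ∈ IndS m := fun p => (hφ _ (Or.inl (pairInd_mem (adj_irrefl p)))).symm
      have hp : ∃ p, (fun w => !((pairInd p p ∘ φ) w)) ∈ IndS m := by
        rcases key (φ u) with h2 | h2
        · exact ⟨_, h2⟩
        rcases key (φ v) with h3 | h3
        · exact ⟨_, h3⟩
        exfalso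
        refine three_colour _ _ _ h2 h3 h1 (fun w => ?_)
        by_cases h4 : φ w = φ u
        · left
          exact pairInd_true.2 (Or.inl h4)
        by_cases h5 : φ w = φ v
        · right; left
          exact pairInd_true.2 (Or.inl h5)
        · right; right
          have : pairInd (φ u) (φ v) (φ w) ≠ true := fun h6 => by
            rcases pairInd_true.1 h6 with h6 | h6
            · exact h4 h6
            · exact h5 h6
          simpa using this
      obtain ⟨p, hp⟩ := hp
      have sub : ∀ w, φ w ≠ p → (fun w => !((pairInd p p ∘ φ) w)) w = true := by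
        intro w hw
        have : pairInd p p (φ w) ≠ true := fun h6 => by
          rcases pairInd_true.1 h6 with h6 | h6 <;> exact hw h6
        simpa using this
      rcases hb : tG n p with _ | _
      · left
        intro a b hab ha hb'
        refine hp a b hab (sub a ?_) (sub b ?_)
        · rintro h7
          simp [h7, hb] at ha
        · rintro h7
          simp [h7, hb] at hb'
      · right
        intro a b hab ha hb'
        refine hp a b hab (sub a ?_) (sub b ?_)
        · rintro h7
          simp [h7, hb] at ha
        · rintro h7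
          simp [h7, hb] at hb'
  · intro n k g hg
    refine Pres_tot (fun X hX => ?_)
    rcases h k g hg with ⟨c, hc⟩ | ⟨i, c, hc⟩
    · cases c
      · left
        have : (fun w => g (fun i => X i w)) = fun _ => false := by
          funext w; exact hc _
        rw [this]
        exact zero_mem_IndS n
      · right
        have : (fun v => !((fun w => g (fun i => X i w)) v)) = fun _ => false := by
          funext w; simp [hc]
        rw [this]
        exact zero_mem_IndS n
    · cases c
      · have : (fun w => g (fun i => X i w)) = X i := by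
          funext w; simp [hc]
        rw [this]
        exact hX i
      · have : (fun w => g (fun i => X i w)) = fun v => !(X i v) := by
          funext w; simp [hc]
        rw [this]
        rcases hX i with h1 | h1
        · right
          have e : (fun v => !((fun v => !(X i v)) v)) = X i := by
            funext v; simp
          rw [e]
          exact h1
        · left
          exact h1
  · intro n k ψ hψ
    -- the fibres are half cubes or everything
    have hQ : ∀ p, QU (n := k) (pairInd p p ∘ ψ) :=
      fun p => h k _ (hψ _ (Or.inl (pairInd_mem (adj_irrefl p))))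
    have hval : ∀ p a, (pairInd p p ∘ ψ) a = true ↔ ψ a = p := by
      intro p a
      constructor
      · intro h1
        rcases pairInd_true.1 h1 with h2 | h2 <;> exact h2
      · intro h1
        exact pairInd_true.2 (Or.inl h1)
    -- at most two values
    have h2 : ∀ a b, ψ a ≠ ψ b → ∀ c, ψ c = ψ a ∨ ψ c = ψ b := by
      intro a b hab c
      rcases hQ (ψ a) with ⟨s, hs⟩ | ⟨i, s, hs⟩
      · have h1 := (hval (ψ a) a).2 rfl
        rw [hs] at h1
        left
        exact (hval (ψ a) c).1 (by rw [hs, h1])
      rcases hQ (ψ b) with ⟨r, hr⟩ | ⟨j, r, hr⟩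
      · have h1 := (hval (ψ b) b).2 rfl
        rw [hr] at h1
        right
        exact (hval (ψ b) c).1 (by rw [hr, h1])
      -- `i = j`
      have hij : i = j := by
        by_contra hij
        -- a point in both
        have h3 := (hval (ψ a) (fun l => if l = i then !s else !r)).1 (by
          rw [hs]; simp)
        have h4 := (hval (ψ b) (fun l => if l = i then !s else !r)).1 (by
          rw [hr]
          have : ¬ j = i := fun h => hij h.symm
          simp [this])
        exact hab (h3.symm.trans h4)
      subst hij
      have hsr : s ≠ r := by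
        rintro rfl
        have h3 := (hval (ψ a) (fun l => !s)).1 (by rw [hs]; simp)
        have h4 := (hval (ψ b) (fun l => !s)).1 (by rw [hr]; simp)
        exact hab (h3.symm.trans h4)
      by_cases hc : xor (c i) s = true
      · left
        exact (hval (ψ a) c).1 (by rw [hs]; exact hc)
      · right
        refine (hval (ψ b) c).1 ?_
        rw [hr]
        revert hc hsr
        cases c i <;> cases s <;> cases r <;> simp
    -- so `t ∘ ψ = x ∘ ψ`
    have hx : ∃ x, (x ∈ IndS n ∨ (fun v => !(x v)) ∈ IndS n) ∧ tG n ∘ ψ = x ∘ ψ := by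
      by_cases hc : ∀ a b, ψ a = ψ b
      · rcases hb : tG n (ψ (fun _ => false)) with _ | _
        · refine ⟨fun _ => false, Or.inl (zero_mem_IndS n), ?_⟩
          funext a
          have := hc a (fun _ => false)
          simp [this, hb]
        · refine ⟨fun _ => true, Or.inr (by simpa using zero_mem_IndS n), ?_⟩
          funext a
          have := hc a (fun _ => false)
          simp [this, hb]
      · push Not at hc
        obtain ⟨a, b, hab⟩ := hc
        have h3 := h2 a b hab
        rcases ha : tG n (ψ a) with _ | _ <;> rcases hb : tG n (ψ b) with _ | _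
        · refine ⟨fun _ => false, Or.inl (zero_mem_IndS n), ?_⟩
          funext c
          rcases h3 c with h4 | h4 <;> simp [h4, ha, hb]
        · refine ⟨pairInd (ψ b) (ψ b), Or.inl (pairInd_mem (adj_irrefl _)), ?_⟩
          have e1 : pairInd (ψ b) (ψ b) (ψ b) = true := pairInd_true.2 (Or.inl rfl)
          have e2 : pairInd (ψ b) (ψ b) (ψ a) = false := by
            by_contra h5
            rcases pairInd_true.1 (by simpa using h5) with h6 | h6 <;> exact hab h6
          funext c
          rcases h3 c with h4 | h4 <;> simp [h4, ha, hb, e1, e2]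
        · refine ⟨pairInd (ψ a) (ψ a), Or.inl (pairInd_mem (adj_irrefl _)), ?_⟩
          have e1 : pairInd (ψ a) (ψ a) (ψ a) = true := pairInd_true.2 (Or.inl rfl)
          have e2 : pairInd (ψ a) (ψ a) (ψ b) = false := by
            by_contra h5
            rcases pairInd_true.1 (by simpa using h5) with h6 | h6 <;> exact hab h6.symm
          funext c
          rcases h3 c with h4 | h4 <;> simp [h4, ha, hb, e1, e2]
        · refine ⟨fun _ => true, Or.inr (by simpa using zero_mem_IndS n), ?_⟩
          funext c
          rcases h3 c with h4 | h4 <;> simp [h4, ha, hb]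
    obtain ⟨x, hx1, hx2⟩ := hx
    rw [hx2]
    exact hψ x hx1

end Pool.Agent.Lib.MP_2f3cff_al
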